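import Pool.Agent.Helper16.CubicSplit

set_option autoImplicit false

/-!
Quadratic forms as polynomials: irreducibility, division (project HP, MP_ffd2c1_ag).
-/

namespace Pool.Agent.Helper5.HP

open MvPolynomial Module Matrix Pool.Agent.Helper16

variable {n : ℕ}

/-- quadratic polynomial of a matrix -/
noncomputable def quadp (S : Matrix (Fin n) (Fin n) ℂ) : MvPolynomial (Fin n) ℂ :=
  ∑ i, ∑ j, C (S i j) * (X i * X j)

theorem eval_quadp (S : Matrix (Fin n) (Fin n) ℂ) (z : Fin n → ℂ) :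
    eval z (quadp S) = z ⬝ᵥ S *ᵥ z := by
  simp only [quadp, map_sum, map_mul, eval_C, eval_X, dotProduct, mulVec, Finset.mul_sum]
  refine Finset.sum_congr rfl fun i _ => Finset.sum_congr rfl fun j _ => ?_
  ring

theorem quadp_hom (S : Matrix (Fin n) (Fin n) ℂ) : (quadp S).IsHomogeneous 2 := by
  refine IsHomogeneous.sum _ _ _ fun i _ => IsHomogeneous.sum _ _ _ fun j _ => ?_
  exact ((isHomogeneous_X ℂ i).mul (isHomogeneous_X ℂ j)).C_mul _

/-- nonzero constant polynomials are units -/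
theorem isUnit_of_hom0 {F : MvPolynomial (Fin n) ℂ} (hF : F.IsHomogeneous 0) (h0 : F ≠ 0) :
    IsUnit F := by
  rw [← totalDegree_zero_iff_isHomogeneous, totalDegree_eq_zero_iff_eq_C] at hF
  rw [hF]
  apply IsUnit.map
  rw [isUnit_iff_ne_zero]
  intro h; apply h0; rw [hF, h, map_zero]

theorem eq_linp_of_hom1 {G : MvPolynomial (Fin n) ℂ} (hG : G.IsHomogeneous 1) :
    ∃ l : (Fin n → ℂ) →ₗ[ℂ] ℂ, G = linp l := by
  obtain ⟨f, hf⟩ := exists_dual_of_hom1 hG
  refine ⟨f, ?_⟩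
  apply MvPolynomial.funext
  intro x
  rw [eval_linp, hf]

/-- two linear forms have a common zero in three or more variables -/
theorem exists_common_zero2 (hn : 3 ≤ n) (f g : (Fin n → ℂ) →ₗ[ℂ] ℂ) :
    ∃ v, v ≠ 0 ∧ f v = 0 ∧ g v = 0 := by
  let φ : (Fin n → ℂ) →ₗ[ℂ] (ℂ × ℂ) := f.prod g
  have h1 := LinearMap.finrank_range_add_finrank_ker φ
  have h2 : finrank ℂ (LinearMap.range φ) ≤ 2 := by
    refine (Submodule.finrank_le _).trans ?_
    simp
  have h3 : finrank ℂ (Fin n → ℂ) = n := by simp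
  rw [h3] at h1
  have h4 : 0 < finrank ℂ (LinearMap.ker φ) := by omega
  obtain ⟨⟨w', hw'⟩, hne⟩ := finrank_pos_iff_exists_ne_zero.mp h4
  have h5 := LinearMap.mem_ker.mp hw'
  exact ⟨w', fun h => hne (Subtype.ext h), congrArg Prod.fst h5, congrArg Prod.snd h5⟩

theorem dot_symm {S : Matrix (Fin n) (Fin n) ℂ} (hS : S.IsSymm) (u v : Fin n → ℂ) :
    u ⬝ᵥ S *ᵥ v = v ⬝ᵥ S *ᵥ u := by
  rw [dotProduct_mulVec, ← mulVec_transpose, hS.eq, dotProduct_comm]

theorem eq_zero_of_dot {S : Matrix (Fin n) (Fin n) ℂ} (hS : S.IsSymm) (hd : S.det ≠ 0)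
    {v : Fin n → ℂ} (h : ∀ w, v ⬝ᵥ S *ᵥ w = 0) : v = 0 := by
  apply eq_zero_of_mulVec_eq_zero hd
  apply dotProduct_eq_zero
  intro w
  rw [dotProduct_comm, dot_symm hS]
  exact h w

/-- a nondegenerate quadratic form in at least three variables is irreducible -/
theorem quadp_irreducible (hn : 3 ≤ n) {S : Matrix (Fin n) (Fin n) ℂ} (hS : S.IsSymm)
    (hd : S.det ≠ 0) : Irreducible (quadp S) := by
  have hne : quadp S ≠ 0 := by
    intro h0
    have hq : ∀ v : Fin n → ℂ, v ⬝ᵥ S *ᵥ v = 0 := fun v => by rw [← eval_quadp, h0, map_zero]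
    have hb : ∀ v w : Fin n → ℂ, v ⬝ᵥ S *ᵥ w = 0 := by
      intro v w
      have h1 := hq (v + w)
      simp only [mulVec_add, dotProduct_add, add_dotProduct, hq] at h1
      rw [dot_symm hS w v] at h1
      linear_combination (1 / 2) * h1
    have h1 : (Pi.single (⟨0, by omega⟩ : Fin n) 1 : Fin n → ℂ) = 0 :=
      eq_zero_of_dot hS hd (hb _)
    have h2 := congrFun h1 ⟨0, by omega⟩
    simp at h2
  refine ⟨fun hu => ?_, fun f g hfg => ?_⟩
  · have h1 := MvPolynomial.isUnit_iff_totalDegree_of_isReduced.mp hu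
    have h2 := (quadp_hom S).totalDegree hne
    omega
  · obtain ⟨a, b, ha, hb, hab⟩ := hom_factor (p := f) (q := g) (by rw [← hfg]; exact quadp_hom S)
      (by rw [← hfg]; exact hne)
    have hf0 : f ≠ 0 := by rintro rfl; apply hne; rw [hfg, zero_mul]
    have hg0 : g ≠ 0 := by rintro rfl; apply hne; rw [hfg, mul_zero]
    rcases Nat.eq_zero_or_pos a with rfl | ha0
    · exact Or.inl (isUnit_of_hom0 ha hf0)
    rcases Nat.eq_zero_or_pos b with rfl | hb0
    · exact Or.inr (isUnit_of_hom0 hb hg0)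
    exfalso
    obtain rfl : a = 1 := by omega
    obtain rfl : b = 1 := by omega
    obtain ⟨l, rfl⟩ := eq_linp_of_hom1 ha
    obtain ⟨m, rfl⟩ := eq_linp_of_hom1 hb
    obtain ⟨v, hv, hlv, hmv⟩ := exists_common_zero2 hn l m
    have hq : ∀ w : Fin n → ℂ, w ⬝ᵥ S *ᵥ w = l w * m w := fun w => by
      rw [← eval_quadp, hfg, map_mul, eval_linp, eval_linp]
    apply hv
    apply eq_zero_of_dot hS hd
    intro w
    have h1 := hq (v + w)
    have h2 := hq w
    have h3 := hq v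
    simp only [mulVec_add, dotProduct_add, add_dotProduct, map_add, hlv, hmv, zero_add] at h1
    rw [hlv, zero_mul] at h3
    rw [dot_symm hS w v, h2, h3] at h1
    linear_combination (1 / 2) * h1

/-- division of a cubic form by a nondegenerate quadratic form -/
theorem cubic_div (hn : 3 ≤ n) {S : Matrix (Fin n) (Fin n) ℂ} (hS : S.IsSymm)
    (hd : S.det ≠ 0) {G : MvPolynomial (Fin n) ℂ} (hG : G.IsHomogeneous 3)
    (h : ∀ z, z ⬝ᵥ S *ᵥ z = 0 → eval z G = 0) :
    ∃ l : (Fin n → ℂ) →ₗ[ℂ] ℂ, G = linp l * quadp S := by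
  by_cases hG0 : G = 0
  · refine ⟨0, ?_⟩
    have : linp (0 : (Fin n → ℂ) →ₗ[ℂ] ℂ) = 0 := by
      apply MvPolynomial.funext; intro x; rw [eval_linp]; simp
    rw [this, hG0, zero_mul]
  · have hirr := quadp_irreducible hn hS hd
    obtain ⟨q, hq⟩ := null_lite hirr (g := G) (fun z hz => h z (by rw [← eval_quadp]; exact hz))
    obtain ⟨a, b, ha, hb, hab⟩ := hom_factor (p := quadp S) (q := q) (by rw [← hq]; exact hG)
      (by rw [← hq]; exact hG0)
    have ha2 : a = 2 := ha.inj_right (quadp_hom S) hirr.ne_zero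
    obtain rfl : b = 1 := by omega
    obtain ⟨l, rfl⟩ := eq_linp_of_hom1 hb
    exact ⟨l, by rw [hq, mul_comm]⟩

theorem dual_eq_smul {V : Type*} [AddCommGroup V] [Module ℂ V] {f g : V →ₗ[ℂ] ℂ}
    (h : ∀ v, f v = 0 → g v = 0) : ∃ k : ℂ, g = k • f := by
  by_cases hf : f = 0
  · refine ⟨0, ?_⟩
    rw [zero_smul]
    ext v
    rw [h v (by rw [hf]; rfl)]; rfl
  · obtain ⟨w, hw⟩ : ∃ w, f w ≠ 0 := by
      by_contra hcon
      push Not at hcon
      exact hf (LinearMap.ext hcon)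
    refine ⟨g w / f w, LinearMap.ext fun v => ?_⟩
    have h1 := h (v - (f v / f w) • w) (by
      rw [map_sub, map_smul, smul_eq_mul, div_mul_cancel₀ _ hw, sub_self])
    rw [map_sub, map_smul, smul_eq_mul] at h1
    rw [LinearMap.smul_apply, smul_eq_mul]
    have h2 : g v = f v / f w * g w := by linear_combination h1
    rw [h2]; ring

/-- cancellation of independent linear forms -/
theorem lin_cancel {a b : (Fin n → ℂ) →ₗ[ℂ] ℂ} (hab : ∀ s t : ℂ, s • a + t • b = 0 → s = 0 ∧ t = 0)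
    {P R : MvPolynomial (Fin n) ℂ} (h : linp a * P = linp b * R) :
    ∃ m, P = linp b * m ∧ R = linp a * m := by
  have ha : a ≠ 0 := by
    rintro rfl
    have := (hab 1 0 (by simp)).1
    exact one_ne_zero this
  have hb : b ≠ 0 := by
    rintro rfl
    have := (hab 0 1 (by simp)).2
    exact one_ne_zero this
  have hbp : Prime (linp b) := (linp_irreducible hb).prime
  have h1 : linp b ∣ linp a * P := ⟨R, h⟩
  rcases hbp.dvd_or_dvd h1 with h2 | h2
  · exfalso
    obtain ⟨k, hk⟩ := dual_eq_smul (f := b) (g := a) (fun v hv => by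
      obtain ⟨q, hq⟩ := h2
      rw [← eval_linp a, hq, map_mul, eval_linp, hv, zero_mul])
    have := (hab 1 (-k) (by rw [hk]; simp)).1
    exact one_ne_zero this
  · obtain ⟨m, hm⟩ := h2
    refine ⟨m, hm, ?_⟩
    have h3 : linp b * R = linp b * (linp a * m) := by
      rw [← h, hm]; ring
    exact mul_left_cancel₀ hbp.ne_zero h3

/-- a quadratic form divisible by a nonzero linear form -/
theorem quad_div {a : (Fin n → ℂ) →ₗ[ℂ] ℂ} (ha : a ≠ 0) {P m : MvPolynomial (Fin n) ℂ}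
    (hP : P.IsHomogeneous 2) (h : P = linp a * m) :
    ∃ μ : (Fin n → ℂ) →ₗ[ℂ] ℂ, m = linp μ := by
  by_cases hm : m = 0
  · refine ⟨0, ?_⟩
    have : linp (0 : (Fin n → ℂ) →ₗ[ℂ] ℂ) = 0 := by
      apply MvPolynomial.funext; intro x; rw [eval_linp]; simp
    rw [this, hm]
  · have hne : linp a * m ≠ 0 := mul_ne_zero (linp_ne_zero ha) hm
    obtain ⟨d, e, hd, he, hde⟩ := hom_factor (p := linp a) (q := m) (by rw [← h]; exact hP) hne
    have hd1 : d = 1 := hd.inj_right (linp_hom a) (linp_ne_zero ha)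
    obtain rfl : e = 1 := by omega
    exact eq_linp_of_hom1 he

end Pool.Agent.Helper5.HP
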