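import Mathlib
import Pool.Agent.Helper29.HP.Defs
import Pool.Agent.Helper5.HP.Quad

set_option autoImplicit false

/-!
Auxiliary facts for the dominance lemma.
-/

namespace Pool.Agent.Helper5.HP

open MvPolynomial Module Matrix Pool.Agent.Helper16 Pool.Agent.Helper29.HP

/-- the determinant of a matrix with a vanishing corner and small row and column -/
theorem det_mem_sq {R : Type*} [CommRing R] (I : Ideal R) {n : Type*} [Fintype n] [DecidableEq n]
    (N : Matrix n n R) (i0 : n) (h00 : N i0 i0 = 0) (hr : ∀ j, N i0 j ∈ I) (hc : ∀ j, N j i0 ∈ I) :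
    N.det ∈ I * I := by
  rw [det_apply]
  refine Ideal.sum_mem _ fun σ _ => ?_
  have key : ∏ i, N (σ i) i ∈ I * I := by
    by_cases hσ : σ i0 = i0
    · have h1 : ∏ i, N (σ i) i = 0 := Finset.prod_eq_zero (Finset.mem_univ i0) (by rw [hσ, h00])
      rw [h1]; exact Ideal.zero_mem _
    · set a0 := σ.symm i0 with ha0
      have hσa : σ a0 = i0 := by rw [ha0, Equiv.apply_symm_apply]
      have hne : a0 ≠ i0 := by
        intro h; apply hσ; rw [← h, hσa, h]
      rw [← Finset.mul_prod_erase Finset.univ _ (Finset.mem_univ i0),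
        ← Finset.mul_prod_erase _ _ (Finset.mem_erase.mpr ⟨hne, Finset.mem_univ a0⟩), hσa,
        ← mul_assoc]
      exact Ideal.mul_mem_right _ _ (Ideal.mul_mem_mul (hc _) (hr _))
  rw [Units.smul_def, zsmul_eq_mul]
  exact Ideal.mul_mem_left _ _ key

theorem pderiv_mem_of_sq {n : ℕ} {I : Ideal (MvPolynomial (Fin n) ℂ)} {x : MvPolynomial (Fin n) ℂ}
    (hx : x ∈ I * I) (i : Fin n) : pderiv i x ∈ I := by
  refine Submodule.mul_induction_on hx (fun a ha b hb => ?_) (fun a b ha hb => ?_)
  · rw [Derivation.leibniz]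
    exact I.add_mem (I.mul_mem_right _ ha) (I.mul_mem_right _ hb)
  · rw [map_add]; exact I.add_mem ha hb

/-- the member of the net at a point -/
noncomputable def netM (m : Fin 3 → Matrix (Fin 6) (Fin 6) ℂ) (z : Fin 3 → ℂ) :
    Matrix (Fin 6) (Fin 6) ℂ := ∑ k, z k • m k

variable {m : Fin 3 → Matrix (Fin 6) (Fin 6) ℂ}

theorem netP_map (m : Fin 3 → Matrix (Fin 6) (Fin 6) ℂ) (z : Fin 3 → ℂ) :
    (netP m).map (eval z) = netM m z := by
  ext i j
  rw [Matrix.map_apply, netP, Matrix.of_apply, map_sum, netM, Matrix.sum_apply]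
  refine Finset.sum_congr rfl fun k _ => ?_
  rw [map_mul, eval_C, eval_X, Matrix.smul_apply, smul_eq_mul, mul_comm]

theorem eval_det (m : Fin 3 → Matrix (Fin 6) (Fin 6) ℂ) (z : Fin 3 → ℂ) :
    eval z (netP m).det = (netM m z).det := by
  rw [RingHom.map_det, RingHom.mapMatrix_apply, netP_map]

theorem netM_smul (m : Fin 3 → Matrix (Fin 6) (Fin 6) ℂ) (a : ℂ) (z : Fin 3 → ℂ) :
    netM m (a • z) = a • netM m z := by
  rw [netM, netM, Finset.smul_sum]
  refine Finset.sum_congr rfl fun k _ => ?_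
  rw [smul_smul]; rfl

theorem netM_add (m : Fin 3 → Matrix (Fin 6) (Fin 6) ℂ) (z z' : Fin 3 → ℂ) :
    netM m (z + z') = netM m z + netM m z' := by
  rw [netM, netM, netM, ← Finset.sum_add_distrib]
  refine Finset.sum_congr rfl fun k _ => ?_
  rw [← add_smul]; rfl

theorem det_hom (m : Fin 3 → Matrix (Fin 6) (Fin 6) ℂ) : (netP m).det.IsHomogeneous 6 := by
  apply isHomogeneous_of_eval
  intro a z
  rw [eval_det, eval_det, netM_smul, det_smul]
  simp

theorem netM_symm (hm : ∀ k, (m k).IsSymm) (z : Fin 3 → ℂ) : (netM m z).IsSymm := by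
  unfold Matrix.IsSymm netM
  rw [transpose_sum]
  refine Finset.sum_congr rfl fun k _ => ?_
  rw [transpose_smul, (hm k).eq]

theorem netM_dot (m : Fin 3 → Matrix (Fin 6) (Fin 6) ℂ) (z : Fin 3 → ℂ) (u v : Fin 6 → ℂ) :
    u ⬝ᵥ netM m z *ᵥ v = ∑ k, z k * (u ⬝ᵥ m k *ᵥ v) := by
  rw [netM, sum_mulVec, dotProduct_sum]
  refine Finset.sum_congr rfl fun k _ => ?_
  rw [smul_mulVec, dotProduct_smul, smul_eq_mul]

/-- conjugation of the matrix of polynomials by constants -/
theorem conj_netP (m : Fin 3 → Matrix (Fin 6) (Fin 6) ℂ) {s : Type*} [Fintype s]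
    (T : Matrix (Fin 6) s ℂ) (a b : s) :
    ((T.map (C : ℂ →+* P3))ᵀ * netP m * T.map (C : ℂ →+* P3)) a b =
      ∑ k, C ((fun i => T i a) ⬝ᵥ m k *ᵥ (fun i => T i b)) * X k := by
  simp only [Matrix.mul_apply, transpose_apply, map_apply, netP, Matrix.of_apply, dotProduct,
    mulVec, map_sum, map_mul, Finset.sum_mul, Finset.mul_sum]
  rw [Finset.sum_comm]
  conv_rhs => rw [Finset.sum_comm]
  refine Finset.sum_congr rfl fun i _ => ?_
  rw [Finset.sum_comm]
  refine Finset.sum_congr rfl fun k _ => Finset.sum_congr rfl fun j _ => ?_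
  ring

/-- on a smooth discriminant curve no member of the net is singular at a base point -/
theorem indep_of_smooth (hm : ∀ k, (m k).IsSymm) {p : Fin 6 → ℂ} (hp : p ≠ 0)
    (hpp : ∀ k, p ⬝ᵥ m k *ᵥ p = 0)
    (hsm : ∀ z : Fin 3 → ℂ, z ≠ 0 → eval z (netP m).det = 0 →
      ∃ i, eval z (pderiv i (netP m).det) ≠ 0) {c : Fin 3 → ℂ}
    (hc : netM m c *ᵥ p = 0) : c = 0 := by
  classical
  by_contra hc0
  obtain ⟨i0, hi0⟩ := Function.ne_iff.mp hp
  have hi0 : p i0 ≠ 0 := hi0
  have hdet0 : eval c (netP m).det = 0 := by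
    rw [eval_det]
    exact exists_mulVec_eq_zero_iff.mp ⟨p, hp, hc⟩
  obtain ⟨i, hi⟩ := hsm c hc0 hdet0
  apply hi
  set I : Ideal P3 := RingHom.ker (eval c) with hI
  set T : Matrix (Fin 6) (Fin 6) ℂ := (1 : Matrix (Fin 6) (Fin 6) ℂ).updateCol i0 p with hT
  have hTd : T.det = p i0 := by
    rw [hT, ← cramer_apply, cramer_one]; rfl
  have hTi : (fun i => T i i0) = p := by
    funext i
    rw [hT, updateCol_self]
  set N := (T.map (C : ℂ →+* P3))ᵀ * netP m * T.map (C : ℂ →+* P3) with hN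
  have hNd : N.det = C (p i0) * C (p i0) * (netP m).det := by
    have h1 : (T.map (C : ℂ →+* P3)).det = C (p i0) := by
      rw [← hTd, RingHom.map_det, RingHom.mapMatrix_apply]
    rw [hN, det_mul, det_mul, det_transpose, h1]; ring
  have hNent : ∀ a b, N a b = ∑ k, C ((fun i => T i a) ⬝ᵥ m k *ᵥ (fun i => T i b)) * X k :=
    fun a b => conj_netP m T a b
  have hev : ∀ a b, eval c (N a b) = (fun i => T i a) ⬝ᵥ netM m c *ᵥ (fun i => T i b) := by
    intro a b
    rw [hNent, map_sum, netM_dot]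
    refine Finset.sum_congr rfl fun k _ => ?_
    rw [map_mul, eval_C, eval_X, mul_comm]
  have h1 : N.det ∈ I * I := by
    refine det_mem_sq I N i0 ?_ (fun j => ?_) (fun j => ?_)
    · rw [hNent, hTi]
      refine Finset.sum_eq_zero fun k _ => ?_
      rw [hpp k, map_zero, zero_mul]
    · rw [hI, RingHom.mem_ker, hev, hTi, dot_symm (netM_symm hm c), hc, dotProduct_zero]
    · rw [hI, RingHom.mem_ker, hev, hTi, hc, dotProduct_zero]
  have h2 : (netP m).det ∈ I * I := by
    have h3 : (netP m).det = C ((p i0)⁻¹ * (p i0)⁻¹) * N.det := by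
      rw [hNd, ← mul_assoc, ← C_mul, ← C_mul]
      have : (p i0)⁻¹ * (p i0)⁻¹ * (p i0 * p i0) = 1 := by field_simp
      rw [this, C_1, one_mul]
    rw [h3]
    exact Ideal.mul_mem_left _ _ h1
  have h3 := pderiv_mem_of_sq h2 i
  rwa [hI, RingHom.mem_ker] at h3

/-- a matrix of polynomials with a large isotropic space has a square determinant -/
theorem not_all_isotropic (hm : ∀ k, (m k).IsSymm) (hirr : Irreducible (netP m).det)
    (Q : Submodule ℂ (Fin 6 → ℂ)) (hQ : finrank ℂ Q = 3) :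
    ∃ v ∈ Q, ∃ k, v ⬝ᵥ m k *ᵥ v ≠ 0 := by
  classical
  by_contra hcon
  push Not at hcon
  have hpol : ∀ u ∈ Q, ∀ v ∈ Q, ∀ k, u ⬝ᵥ m k *ᵥ v = 0 := by
    intro u hu v hv k
    have h1 := hcon (u + v) (Q.add_mem hu hv) k
    rw [mulVec_add, dotProduct_add, add_dotProduct, add_dotProduct, hcon u hu, hcon v hv,
      dot_symm (hm k) v u] at h1
    linear_combination (1 / 2) * h1
  obtain ⟨R, hR⟩ := Submodule.exists_isCompl Q
  have hRr : finrank ℂ R = 3 := by
    have h1 := Submodule.finrank_add_eq_of_isCompl hR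
    have h2 : finrank ℂ (Fin 6 → ℂ) = 6 := by simp
    omega
  have hf1 : Module.Free ℂ Q := Module.Free.of_divisionRing ℂ Q
  have hf2 : Module.Free ℂ R := Module.Free.of_divisionRing ℂ R
  let bQ : Basis (Fin 3) ℂ Q := finBasisOfFinrankEq ℂ Q hQ
  let bR : Basis (Fin 3) ℂ R := finBasisOfFinrankEq ℂ R hRr
  let w : Basis (Fin 3 ⊕ Fin 3) ℂ (Fin 6 → ℂ) :=
    (bQ.prod bR).map (Submodule.prodEquivOfIsCompl Q R hR)
  have hw : ∀ i, w (.inl i) ∈ Q := by
    intro i
    have : w (.inl i) = (bQ i : Fin 6 → ℂ) := by simp [w]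
    rw [this]; exact (bQ i).2
  let e : Fin 3 ⊕ Fin 3 ≃ Fin 6 := finSumFinEquiv
  set T : Matrix (Fin 6) (Fin 3 ⊕ Fin 3) ℂ := Matrix.of fun i s => w s i with hT
  have hTa : ∀ s, (fun i => T i s) = w s := fun s => rfl
  set N := (T.map (C : ℂ →+* P3))ᵀ * netP m * T.map (C : ℂ →+* P3) with hN
  have hNent : ∀ a b, N a b = ∑ k, C (w a ⬝ᵥ m k *ᵥ w b) * X k := by
    intro a b
    rw [hN, conj_netP, hTa, hTa]
  -- block form
  set B : Matrix (Fin 3) (Fin 3) P3 := Matrix.of fun i j => N (.inl i) (.inr j) with hB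
  set D : Matrix (Fin 3) (Fin 3) P3 := Matrix.of fun i j => N (.inr i) (.inr j) with hD
  have hblock : N = fromBlocks 0 B Bᵀ D := by
    ext1 a b
    rcases a with a | a <;> rcases b with b | b
    · rw [fromBlocks_apply₁₁, hNent]
      refine Finset.sum_eq_zero fun k _ => ?_
      rw [hpol _ (hw a) _ (hw b), map_zero, zero_mul]
    · rw [fromBlocks_apply₁₂, hB, Matrix.of_apply]
    · rw [fromBlocks_apply₂₁, transpose_apply, hB, Matrix.of_apply, hNent, hNent]
      refine Finset.sum_congr rfl fun k _ => ?_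
      rw [dot_symm (hm k)]
    · rw [fromBlocks_apply₂₂, hD, Matrix.of_apply]
  set J0 : Matrix (Fin 3 ⊕ Fin 3) (Fin 3 ⊕ Fin 3) P3 := fromBlocks 0 1 1 0 with hJ0
  have hJ : J0.det * J0.det = 1 := by
    rw [← det_mul, hJ0, fromBlocks_multiply]
    simp
  have h1 : N.det * J0.det = B.det * B.det := by
    rw [← det_mul, hblock, hJ0, fromBlocks_multiply]
    simp only [zero_mul, mul_one, zero_add, mul_zero, add_zero]
    rw [det_fromBlocks_zero₁₂, det_transpose]
  -- the square matrix of the basis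
  set T6 : Matrix (Fin 6) (Fin 6) ℂ := Matrix.of fun i j => w (e.symm j) i with hT6
  have hT6d : T6.det ≠ 0 := by
    have h2 : LinearIndependent ℂ (fun j => w (e.symm j)) :=
      w.linearIndependent.comp _ e.symm.injective
    have h3 : LinearIndependent ℂ T6.col := h2
    rw [Matrix.linearIndependent_cols_iff_isUnit] at h3
    exact ((Matrix.isUnit_iff_isUnit_det _).mp h3).ne_zero
  have h2 : N.det = C (T6.det) * C (T6.det) * (netP m).det := by
    have h3 : N.submatrix e.symm e.symm =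
        (T6.map (C : ℂ →+* P3))ᵀ * netP m * T6.map (C : ℂ →+* P3) := by
      ext1 a b
      rw [submatrix_apply, hN, conj_netP, conj_netP]
      rfl
    have h4 : (T6.map (C : ℂ →+* P3)).det = C (T6.det) := by
      rw [RingHom.map_det, RingHom.mapMatrix_apply]
    rw [← det_submatrix_equiv_self e.symm N, h3, det_mul, det_mul, det_transpose, h4]
    ring
  -- conclusion
  have hu : IsUnit (C (T6.det) * C (T6.det) * J0.det : P3) := by
    have h3 : IsUnit (C (T6.det) : P3) := (isUnit_iff_ne_zero.mpr hT6d).map C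
    exact (h3.mul h3).mul (isUnit_iff_exists_inv.mpr ⟨_, hJ⟩)
  have h3 : Irreducible (C (T6.det) * C (T6.det) * J0.det * (netP m).det) :=
    (irreducible_isUnit_mul hu).mpr hirr
  have h4 : C (T6.det) * C (T6.det) * J0.det * (netP m).det = B.det * B.det := by
    rw [← h1, h2]; ring
  rw [h4] at h3
  exact h3.not_isSquare ⟨B.det, rfl⟩

/-- completing a nonzero vector to a basis of three-space -/
theorem exists_frame {z : Fin 3 → ℂ} (hz : z ≠ 0) :
    ∃ (u w : Fin 3 → ℂ) (cu cw cz : (Fin 3 → ℂ) →ₗ[ℂ] ℂ),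
      (∀ v, v = cu v • u + cw v • w + cz v • z) ∧ cu z = 0 ∧ cw z = 0 ∧ cz z = 1 ∧
      ∀ r s t : ℂ, r • u + s • w + t • z = 0 → r = 0 ∧ s = 0 ∧ t = 0 := by
  have aux : ∀ (i j k : Fin 3), (∀ a : Fin 3, a = i ∨ a = j ∨ a = k) → i ≠ j → i ≠ k → j ≠ k →
      z i ≠ 0 → ∃ (u w : Fin 3 → ℂ) (cu cw cz : (Fin 3 → ℂ) →ₗ[ℂ] ℂ),
      (∀ v, v = cu v • u + cw v • w + cz v • z) ∧ cu z = 0 ∧ cw z = 0 ∧ cz z = 1 ∧
      ∀ r s t : ℂ, r • u + s • w + t • z = 0 → r = 0 ∧ s = 0 ∧ t = 0 := by
    intro i j k hall hij hik hjk hzi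
    refine ⟨Pi.single j 1, Pi.single k 1,
      LinearMap.proj j - (z j / z i) • LinearMap.proj i,
      LinearMap.proj k - (z k / z i) • LinearMap.proj i,
      (z i)⁻¹ • LinearMap.proj i, ?_, ?_, ?_, ?_, ?_⟩
    · intro v
      funext a
      simp only [LinearMap.sub_apply, LinearMap.smul_apply, LinearMap.proj_apply, smul_eq_mul,
        Pi.add_apply, Pi.smul_apply, Pi.single_apply]
      rcases hall a with rfl | rfl | rfl
      · rw [if_neg hij, if_neg hik]; field_simp; ring
      · rw [if_pos rfl, if_neg hjk]; field_simp; ring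
      · rw [if_neg hjk.symm, if_pos rfl]; field_simp; ring
    · simp only [LinearMap.sub_apply, LinearMap.smul_apply, LinearMap.proj_apply, smul_eq_mul]
      field_simp; ring
    · simp only [LinearMap.sub_apply, LinearMap.smul_apply, LinearMap.proj_apply, smul_eq_mul]
      field_simp; ring
    · simp only [LinearMap.smul_apply, LinearMap.proj_apply, smul_eq_mul]
      field_simp
    · intro r s t h
      have hi := congrFun h i
      have hj := congrFun h j
      have hk := congrFun h k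
      simp only [Pi.add_apply, Pi.smul_apply, smul_eq_mul, Pi.single_apply, Pi.zero_apply,
        if_neg hij, if_neg hik, if_neg hjk, if_neg hjk.symm, if_true, mul_zero, mul_one, zero_add,
        add_zero] at hi hj hk
      have ht : t = 0 := (mul_eq_zero.mp hi).resolve_right hzi
      rw [ht] at hj hk
      refine ⟨by linear_combination hj, by linear_combination hk, ht⟩
  obtain ⟨i, hi⟩ := Function.ne_iff.mp hz
  have hi : z i ≠ 0 := hi
  fin_cases i
  · exact aux 0 1 2 (by decide) (by decide) (by decide) (by decide) hi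
  · exact aux 1 0 2 (by decide) (by decide) (by decide) (by decide) hi
  · exact aux 2 0 1 (by decide) (by decide) (by decide) (by decide) hi

/-- homogeneous components vanish at a point if the polynomial vanishes on the line -/
theorem comp_of_line {n : ℕ} {h : MvPolynomial (Fin n) ℂ} {z : Fin n → ℂ}
    (hz : ∀ a : ℂ, eval (a • z) h = 0) (i : ℕ) : eval z (homogeneousComponent i h) = 0 := by
  let Q : Polynomial ℂ := ∑ i ∈ Finset.range (h.totalDegree + 1),
    Polynomial.C (eval z (homogeneousComponent i h)) * Polynomial.X ^ i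
  have hQ : Q = 0 := by
    apply Polynomial.funext
    intro a
    simp only [Q, Polynomial.eval_finsetSum, Polynomial.eval_mul,
      Polynomial.eval_C, Polynomial.eval_pow, Polynomial.eval_X, Polynomial.eval_zero]
    have h1 : eval (a • z) h = ∑ i ∈ Finset.range (h.totalDegree + 1),
        eval (a • z) (homogeneousComponent i h) := by
      rw [← map_sum, sum_homogeneousComponent]
    rw [hz a] at h1
    rw [h1]
    refine Finset.sum_congr rfl fun i _ => ?_
    rw [eval_smul_of_hom (homogeneousComponent_isHomogeneous i h)]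
    ring
  have h2 := congrArg (fun q => Polynomial.coeff q i) hQ
  simp only [Q, Polynomial.finsetSum_coeff, Polynomial.coeff_C_mul,
    Polynomial.coeff_X_pow, Polynomial.coeff_zero] at h2
  by_cases hk2 : i ∈ Finset.range (h.totalDegree + 1)
  · rw [Finset.sum_eq_single i] at h2
    · simpa using h2
    · intro j _ hj; simp [hj.symm]
    · intro h; exact absurd hk2 h
  · rw [homogeneousComponent_eq_zero, map_zero]
    simp only [Finset.mem_range, not_lt] at hk2; omega

end Pool.Agent.Helper5.HP
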