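import Pool.Agent.Helper5.HP.Quad

set_option autoImplicit false

/-!
Three quadrics through a point: the dominance lemma at one member of the net.
-/

namespace Pool.Agent.Helper5.HP

open MvPolynomial Module Matrix Pool.Agent.Helper16

/-- the functional `v ↦ p · A v` -/
noncomputable def fn {n : ℕ} (A : Matrix (Fin n) (Fin n) ℂ) (p : Fin n → ℂ) :
    (Fin n → ℂ) →ₗ[ℂ] ℂ where
  toFun v := p ⬝ᵥ A *ᵥ v
  map_add' u v := by rw [mulVec_add, dotProduct_add]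
  map_smul' r v := by rw [mulVec_smul, dotProduct_smul]; rfl

theorem fn_apply {n : ℕ} (A : Matrix (Fin n) (Fin n) ℂ) (p v : Fin n → ℂ) :
    fn A p v = p ⬝ᵥ A *ᵥ v := rfl

/-- restriction of a quadratic form along a linear map given by a matrix -/
theorem dot_conj {m n : ℕ} (A : Matrix (Fin n) (Fin n) ℂ) (J : Matrix (Fin n) (Fin m) ℂ)
    (x y : Fin m → ℂ) : x ⬝ᵥ (Jᵀ * A * J) *ᵥ y = (J *ᵥ x) ⬝ᵥ A *ᵥ (J *ᵥ y) := by
  rw [← mulVec_mulVec, ← mulVec_mulVec, dotProduct_mulVec, vecMul_transpose]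

theorem conj_symm {m n : ℕ} {A : Matrix (Fin n) (Fin n) ℂ} (hA : A.IsSymm)
    (J : Matrix (Fin n) (Fin m) ℂ) : (Jᵀ * A * J).IsSymm := by
  unfold Matrix.IsSymm
  rw [transpose_mul, transpose_mul, transpose_transpose, hA.eq, Matrix.mul_assoc]

/-- dominance lemma at one member `E` of the net -/
theorem pencil {A B E : Matrix (Fin 6) (Fin 6) ℂ} (hA : A.IsSymm) (hB : B.IsSymm) (hC : E.IsSymm)
    (hCd : E.det ≠ 0) {p : Fin 6 → ℂ} (hpA : p ⬝ᵥ A *ᵥ p = 0) (hpB : p ⬝ᵥ B *ᵥ p = 0)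
    (hpC : p ⬝ᵥ E *ᵥ p = 0)
    (hind : ∀ r s t : ℂ, r • A *ᵥ p + s • B *ᵥ p + t • E *ᵥ p = 0 → r = 0 ∧ s = 0 ∧ t = 0)
    (hQ : ∃ v, p ⬝ᵥ A *ᵥ v = 0 ∧ p ⬝ᵥ B *ᵥ v = 0 ∧ p ⬝ᵥ E *ᵥ v = 0 ∧ v ⬝ᵥ E *ᵥ v ≠ 0)
    (h : ∀ v, p ⬝ᵥ E *ᵥ v = 0 → v ⬝ᵥ E *ᵥ v = 0 →
      (p ⬝ᵥ A *ᵥ v) * (v ⬝ᵥ B *ᵥ v) = (p ⬝ᵥ B *ᵥ v) * (v ⬝ᵥ A *ᵥ v)) :
    ∃ s t : ℂ, ∀ x y : ℂ, (x • (A + t • E) + y • (B - s • E)).det = 0 := by
  classical
  have hp0 : p ≠ 0 := by
    rintro rfl
    have := (hind 1 0 0 (by simp)).1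
    exact one_ne_zero this
  -- the hyperplane and a complement of the point in it
  set γ := fn E p with hγ
  have hγ0 : γ ≠ 0 := by
    intro h0
    apply hp0
    apply eq_zero_of_dot hC hCd
    intro w
    exact LinearMap.congr_fun h0 w
  obtain ⟨w0, hw0⟩ : ∃ w, γ w ≠ 0 := by
    by_contra hcon
    push Not at hcon
    exact hγ0 (LinearMap.ext hcon)
  obtain ⟨W, hW⟩ : ∃ W : Submodule ℂ (Fin 6 → ℂ), W = LinearMap.ker γ := ⟨_, rfl⟩
  have hWm : ∀ w, w ∈ W ↔ γ w = 0 := fun w => by rw [hW]; exact LinearMap.mem_ker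
  have hpW : p ∈ W := (hWm p).mpr hpC
  obtain ⟨U, hU⟩ := Submodule.exists_isCompl (Submodule.span ℂ {(⟨p, hpW⟩ : W)})
  have hWr : finrank ℂ W = 5 := by
    have h1 := LinearMap.finrank_range_add_finrank_ker γ
    have h2 : LinearMap.range γ = ⊤ := LinearMap.range_eq_top.mpr
      (LinearMap.surjective_of_ne_zero hγ0)
    rw [h2, finrank_top, finrank_self] at h1
    have h3 : finrank ℂ (Fin 6 → ℂ) = 6 := by simp
    rw [h3, ← hW] at h1
    omega
  have hUr : finrank ℂ U = 4 := by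
    have h1 := Submodule.finrank_add_eq_of_isCompl hU
    rw [finrank_span_singleton (by
      intro h0; exact hp0 (congrArg Subtype.val h0)), hWr] at h1
    omega
  have hfree : Module.Free ℂ U := Module.Free.of_divisionRing ℂ U
  let b : Basis (Fin 4) ℂ U := finBasisOfFinrankEq ℂ U hUr
  set J : Matrix (Fin 6) (Fin 4) ℂ := Matrix.of fun i j => ((b j : W) : Fin 6 → ℂ) i with hJ
  have hJx : ∀ x : Fin 4 → ℂ, J *ᵥ x = (((b.equivFun.symm x : U) : W) : Fin 6 → ℂ) := by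
    intro x
    rw [Basis.equivFun_symm_apply]
    funext i
    simp only [mulVec, dotProduct, hJ, Matrix.of_apply, Submodule.coe_sum, Submodule.coe_smul,
      Finset.sum_apply, Pi.smul_apply, smul_eq_mul]
    refine Finset.sum_congr rfl fun j _ => ?_
    ring
  have hJW : ∀ x : Fin 4 → ℂ, p ⬝ᵥ E *ᵥ (J *ᵥ x) = 0 := by
    intro x
    rw [hJx]
    exact (hWm _).mp ((b.equivFun.symm x : U) : W).2
  have hJinj : ∀ (x : Fin 4 → ℂ) (k : ℂ), J *ᵥ x = k • p → x = 0 := by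
    intro x k hx
    rw [hJx] at hx
    have h1 : ((b.equivFun.symm x : U) : W) = k • (⟨p, hpW⟩ : W) := Subtype.ext hx
    have h2 : ((b.equivFun.symm x : U) : W) ∈ Submodule.span ℂ {(⟨p, hpW⟩ : W)} := by
      rw [h1]; exact Submodule.smul_mem _ _ (Submodule.mem_span_singleton_self _)
    have h3 := (Submodule.disjoint_def.mp hU.disjoint) _ h2 (b.equivFun.symm x : U).2
    have h4 : (b.equivFun.symm x : U) = 0 := Subtype.ext h3
    exact (b.equivFun.symm.map_eq_zero_iff).mp h4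
  have hdec : ∀ w : Fin 6 → ℂ, γ w = 0 → ∃ (x : Fin 4 → ℂ) (k : ℂ), w = J *ᵥ x + k • p := by
    intro w hw
    have h1 : (⟨w, (hWm w).mpr hw⟩ : W) ∈
        Submodule.span ℂ {(⟨p, hpW⟩ : W)} ⊔ U := by
      rw [hU.sup_eq_top]; trivial
    obtain ⟨a, ha, u, hu, hau⟩ := Submodule.mem_sup.mp h1
    obtain ⟨k, rfl⟩ := Submodule.mem_span_singleton.mp ha
    refine ⟨b.equivFun ⟨u, hu⟩, k, ?_⟩
    rw [hJx, LinearEquiv.symm_apply_apply]
    have h2 : w = ((k • (⟨p, hpW⟩ : W) + u : W) : Fin 6 → ℂ) := (congrArg Subtype.val hau).symm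
    rw [h2, add_comm]
    rfl
  -- the restrictions
  set S := Jᵀ * E * J with hS
  have hSs : S.IsSymm := conj_symm hC J
  have hSd : S.det ≠ 0 := by
    intro h0
    obtain ⟨y, hy, hy0⟩ := exists_mulVec_eq_zero_iff.mpr h0
    have h1 : ∀ x : Fin 4 → ℂ, (J *ᵥ x) ⬝ᵥ E *ᵥ (J *ᵥ y) = 0 := by
      intro x
      rw [← dot_conj, ← hS, hy0, dotProduct_zero]
    -- the functional of `J y` is a multiple of `γ`
    obtain ⟨k, hk⟩ := dual_eq_smul (f := γ) (g := fn E (J *ᵥ y)) (by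
      intro w hw
      obtain ⟨x, k, rfl⟩ := hdec w hw
      rw [fn_apply, mulVec_add, dotProduct_add, mulVec_smul, dotProduct_smul,
        dot_symm hC (J *ᵥ y) (J *ᵥ x), h1, dot_symm hC (J *ᵥ y) p, hJW]
      simp)
    have h2 : J *ᵥ y - k • p = 0 := by
      apply eq_zero_of_dot hC hCd
      intro w
      have := LinearMap.congr_fun hk w
      rw [fn_apply, LinearMap.smul_apply, hγ, fn_apply, smul_eq_mul] at this
      rw [sub_dotProduct, smul_dotProduct, this, smul_eq_mul, sub_self]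
    exact hy (hJinj y k (sub_eq_zero.mp h2))
  let JL : (Fin 4 → ℂ) →ₗ[ℂ] (Fin 6 → ℂ) := J.mulVecLin
  have hJL : ∀ x, JL x = J *ᵥ x := fun x => rfl
  set α' : (Fin 4 → ℂ) →ₗ[ℂ] ℂ := (fn A p).comp JL with hα'
  set β' : (Fin 4 → ℂ) →ₗ[ℂ] ℂ := (fn B p).comp JL with hβ'
  have hα : ∀ x, α' x = p ⬝ᵥ A *ᵥ (J *ᵥ x) := fun x => rfl
  have hβ : ∀ x, β' x = p ⬝ᵥ B *ᵥ (J *ᵥ x) := fun x => rfl
  set PA := quadp (Jᵀ * A * J) with hPA
  set PB := quadp (Jᵀ * B * J) with hPB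
  set PC := quadp S with hPC
  have ePA : ∀ x, eval x PA = (J *ᵥ x) ⬝ᵥ A *ᵥ (J *ᵥ x) := fun x => by
    rw [hPA, eval_quadp, dot_conj]
  have ePB : ∀ x, eval x PB = (J *ᵥ x) ⬝ᵥ B *ᵥ (J *ᵥ x) := fun x => by
    rw [hPB, eval_quadp, dot_conj]
  have ePC : ∀ x, eval x PC = (J *ᵥ x) ⬝ᵥ E *ᵥ (J *ᵥ x) := fun x => by
    rw [hPC, eval_quadp, hS, dot_conj]
  obtain ⟨l, hl⟩ := cubic_div (n := 4) (by norm_num) hSs hSd
    (G := linp α' * PB - linp β' * PA)
    (((linp_hom α').mul (quadp_hom _)).sub ((linp_hom β').mul (quadp_hom _))) (by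
      intro x hx
      rw [hS, dot_conj] at hx
      rw [map_sub, map_mul, map_mul, eval_linp, eval_linp, ePA, ePB, hα, hβ,
        h _ (hJW x) hx, sub_self])
  -- the linear form `l` vanishes on the common kernel of `α'` and `β'`
  obtain ⟨v, hv1, hv2, hv3, hv4⟩ := hQ
  obtain ⟨x0, k0, hvx⟩ := hdec v hv3
  have hx0 : (J *ᵥ x0) ⬝ᵥ E *ᵥ (J *ᵥ x0) ≠ 0 := by
    intro h0
    apply hv4
    rw [hvx, mulVec_add, mulVec_smul, dotProduct_add, add_dotProduct, add_dotProduct,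
      dotProduct_smul, dotProduct_smul, smul_dotProduct, smul_dotProduct, h0, hJW,
      dot_symm hC (J *ᵥ x0) p, hJW, hpC]
    simp
  have hx0α : α' x0 = 0 := by
    rw [hvx, mulVec_add, mulVec_smul, dotProduct_add, dotProduct_smul, hpA, smul_zero,
      add_zero] at hv1
    exact hv1
  have hx0β : β' x0 = 0 := by
    rw [hvx, mulVec_add, mulVec_smul, dotProduct_add, dotProduct_smul, hpB, smul_zero,
      add_zero] at hv2
    exact hv2
  have hlz : ∀ x, α' x = 0 → β' x = 0 → l x * ((J *ᵥ x) ⬝ᵥ E *ᵥ (J *ᵥ x)) = 0 := by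
    intro x hx1 hx2
    have h1 := congrArg (eval x) hl
    rw [map_sub, map_mul, map_mul, map_mul, eval_linp, eval_linp, eval_linp, hx1, hx2, ePC] at h1
    rw [← h1]; ring
  have hlx0 : l x0 = 0 := (mul_eq_zero.mp (hlz x0 hx0α hx0β)).resolve_right hx0
  have hlv : ∀ x, α' x = 0 → β' x = 0 → l x = 0 := by
    intro x hx1 hx2
    by_contra hlx
    have key : ∀ t : ℂ, (J *ᵥ (x + t • x0)) ⬝ᵥ E *ᵥ (J *ᵥ (x + t • x0)) = 0 := by
      intro t
      have h1 := hlz (x + t • x0) (by rw [map_add, map_smul, hx1, hx0α]; simp)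
        (by rw [map_add, map_smul, hx2, hx0β]; simp)
      rw [map_add, map_smul, hlx0, smul_zero, add_zero] at h1
      exact (mul_eq_zero.mp h1).resolve_left hlx
    have exp : ∀ t : ℂ, (J *ᵥ x) ⬝ᵥ E *ᵥ (J *ᵥ x) + 2 * t * ((J *ᵥ x) ⬝ᵥ E *ᵥ (J *ᵥ x0)) +
        t ^ 2 * ((J *ᵥ x0) ⬝ᵥ E *ᵥ (J *ᵥ x0)) = 0 := by
      intro t
      have h1 := key t
      rw [mulVec_add, mulVec_smul, mulVec_add, mulVec_smul, dotProduct_add, add_dotProduct,
        add_dotProduct, dotProduct_smul, dotProduct_smul, smul_dotProduct, smul_dotProduct,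
        dot_symm hC (J *ᵥ x0) (J *ᵥ x)] at h1
      simp only [smul_eq_mul] at h1
      linear_combination h1
    apply hx0
    linear_combination (1 / 2) * exp 1 + (1 / 2) * exp (-1) - exp 0
  obtain ⟨s, t, hst⟩ : ∃ s t : ℂ, l = s • α' + t • β' := by
    have h1 : l ∈ Submodule.span ℂ (Set.range ![α', β']) := by
      apply mem_span_of_iInf_ker_le_ker
      intro x hx
      rw [Submodule.mem_iInf] at hx
      exact LinearMap.mem_ker.mpr (hlv x (LinearMap.mem_ker.mp (hx 0)) (LinearMap.mem_ker.mp (hx 1)))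
    obtain ⟨c, hc⟩ := (Submodule.mem_span_range_iff_exists_fun ℂ).mp h1
    refine ⟨c 0, c 1, ?_⟩
    rw [← hc, Fin.sum_univ_two]; rfl
  -- independence of `α'` and `β'`
  have hab : ∀ s t : ℂ, s • α' + t • β' = 0 → s = 0 ∧ t = 0 := by
    intro s t hst'
    obtain ⟨k, hk⟩ := dual_eq_smul (f := γ) (g := s • fn A p + t • fn B p) (by
      intro w hw
      obtain ⟨x, k, rfl⟩ := hdec w hw
      have h1 := LinearMap.congr_fun hst' x
      simp only [LinearMap.add_apply, LinearMap.smul_apply, hα, hβ, smul_eq_mul,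
        LinearMap.zero_apply] at h1
      simp only [LinearMap.add_apply, LinearMap.smul_apply, fn_apply, mulVec_add, mulVec_smul,
        dotProduct_add, dotProduct_smul, hpA, hpB, smul_eq_mul, mul_zero, add_zero]
      exact h1)
    have h2 : s • A *ᵥ p + t • B *ᵥ p + (-k) • E *ᵥ p = 0 := by
      apply dotProduct_eq_zero
      intro w
      have h3 := LinearMap.congr_fun hk w
      simp only [LinearMap.add_apply, LinearMap.smul_apply, fn_apply, smul_eq_mul, hγ] at h3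
      rw [add_dotProduct, add_dotProduct, smul_dotProduct, smul_dotProduct, smul_dotProduct,
        dotProduct_comm _ w, dotProduct_comm _ w, dotProduct_comm _ w, dot_symm hA w p,
        dot_symm hB w p, dot_symm hC w p]
      simp only [smul_eq_mul]
      linear_combination h3
    exact ⟨(hind _ _ _ h2).1, (hind _ _ _ h2).2.1⟩
  have hα0 : α' ≠ 0 := by
    intro h0
    exact one_ne_zero (hab 1 0 (by rw [h0]; simp)).1
  -- cancellation
  have heq : linp α' * (PB - C s * PC) = linp β' * (PA + C t * PC) := by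
    have h1 : linp l = C s * linp α' + C t * linp β' := by
      apply MvPolynomial.funext
      intro x
      rw [eval_linp, hst, map_add, map_mul, map_mul, eval_linp, eval_linp, eval_C, eval_C]
      rfl
    rw [h1] at hl
    linear_combination hl
  obtain ⟨m, hm1, hm2⟩ := lin_cancel hab heq
  obtain ⟨μ, hμ⟩ := quad_div hα0 ((quadp_hom _).add ((quadp_hom _).C_mul t)) hm2
  rw [hμ] at hm1 hm2
  have e1 : ∀ x : Fin 4 → ℂ, (J *ᵥ x) ⬝ᵥ A *ᵥ (J *ᵥ x) + t * ((J *ᵥ x) ⬝ᵥ E *ᵥ (J *ᵥ x)) =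
      α' x * μ x := by
    intro x
    have h1 := congrArg (eval x) hm2
    rw [map_add, map_mul, map_mul, ePA, ePC, eval_linp, eval_linp, eval_C] at h1
    exact h1
  have e2 : ∀ x : Fin 4 → ℂ, (J *ᵥ x) ⬝ᵥ B *ᵥ (J *ᵥ x) - s * ((J *ᵥ x) ⬝ᵥ E *ᵥ (J *ᵥ x)) =
      β' x * μ x := by
    intro x
    have h1 := congrArg (eval x) hm1
    rw [map_sub, map_mul, map_mul, ePB, ePC, eval_linp, eval_linp, eval_C] at h1
    exact h1
  refine ⟨s, t, fun x y => ?_⟩
  set T := x • (A + t • E) + y • (B - s • E) with hT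
  have hTs : T.IsSymm := by
    have h1 : (A + t • E).IsSymm := hA.add (hC.smul t)
    have h2 : (B - s • E).IsSymm := hB.sub (hC.smul s)
    exact (h1.smul x).add (h2.smul y)
  have hTuv : ∀ u v : Fin 6 → ℂ, u ⬝ᵥ T *ᵥ v = x * (u ⬝ᵥ A *ᵥ v + t * (u ⬝ᵥ E *ᵥ v)) +
      y * (u ⬝ᵥ B *ᵥ v - s * (u ⬝ᵥ E *ᵥ v)) := by
    intro u v
    rw [hT, add_mulVec, smul_mulVec, smul_mulVec, add_mulVec, sub_mulVec, smul_mulVec,
      smul_mulVec]
    simp only [dotProduct_add, dotProduct_smul, dotProduct_sub, smul_eq_mul]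
  set f : (Fin 4 → ℂ) →ₗ[ℂ] ℂ := x • α' + y • β' with hf
  have hfx : ∀ z, f z = x * α' z + y * β' z := fun z => rfl
  have hTq : ∀ z : Fin 4 → ℂ, (J *ᵥ z) ⬝ᵥ T *ᵥ (J *ᵥ z) = f z * μ z := by
    intro z
    rw [hTuv, e1, e2, hfx]; ring
  -- a vector in the kernel
  obtain ⟨z, hz, hz1, hz2, hz3⟩ : ∃ z : Fin 4 → ℂ, z ≠ 0 ∧ f z = 0 ∧ μ z = 0 ∧
      (fn T w0) (JL z) = 0 := by
    let φ : (Fin 4 → ℂ) →ₗ[ℂ] (ℂ × ℂ × ℂ) := f.prod (μ.prod ((fn T w0).comp JL))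
    have h1 := LinearMap.finrank_range_add_finrank_ker φ
    have h2 : finrank ℂ (LinearMap.range φ) ≤ 3 := by
      refine (Submodule.finrank_le _).trans ?_
      simp
    have h3 : finrank ℂ (Fin 4 → ℂ) = 4 := by simp
    rw [h3] at h1
    have h4 : 0 < finrank ℂ (LinearMap.ker φ) := by omega
    obtain ⟨⟨w', hw'⟩, hne⟩ := finrank_pos_iff_exists_ne_zero.mp h4
    have h5 := LinearMap.mem_ker.mp hw'
    exact ⟨w', fun h => hne (Subtype.ext h), congrArg Prod.fst h5,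
      congrArg (fun q => q.2.1) h5, congrArg (fun q => q.2.2) h5⟩
  have hker : T *ᵥ (J *ᵥ z) = 0 := by
    apply dotProduct_eq_zero
    intro w
    rw [dotProduct_comm]
    -- decompose `w`
    obtain ⟨z', k, hw⟩ := hdec (w - (γ w / γ w0) • w0) (by
      rw [map_sub, map_smul, smul_eq_mul, div_mul_cancel₀ _ hw0, sub_self])
    have hw' : w = J *ᵥ z' + k • p + (γ w / γ w0) • w0 := by rw [← hw]; abel
    have a1 : (J *ᵥ z') ⬝ᵥ T *ᵥ (J *ᵥ z) = 0 := by
      have h1 := hTq (z' + z)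
      rw [mulVec_add, mulVec_add, dotProduct_add, add_dotProduct, add_dotProduct, hTq z', hTq z,
        dot_symm hTs (J *ᵥ z) (J *ᵥ z'), map_add, map_add, hz1, hz2] at h1
      linear_combination (1 / 2) * h1
    have a2 : p ⬝ᵥ T *ᵥ (J *ᵥ z) = 0 := by
      rw [hTuv, hJW, ← hα, ← hβ]
      have := hz1
      rw [hfx] at this
      linear_combination this
    have a3 : w0 ⬝ᵥ T *ᵥ (J *ᵥ z) = 0 := hz3
    rw [hw', add_dotProduct, add_dotProduct, smul_dotProduct, smul_dotProduct, a1, a2, a3]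
    simp
  by_contra hdet
  have h1 := eq_zero_of_mulVec_eq_zero hdet hker
  exact hz (hJinj z 0 (by rw [h1, zero_smul]))

end Pool.Agent.Helper5.HP
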