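import Pool.Agent.Helper5.HP.RatNeOne
import Pool.Agent.Helper29.HP.Final

set_option autoImplicit false

/-!
Theorem A for all theta characteristics without a unique section, in the language of the cubic
form and the matrix of its quadric surface bundle.
-/

namespace Pool.Agent.Helper29.HP

open MvPolynomial Module

/-- Theorem A: the twisted theta characteristic does not have exactly one section -/
theorem rational_of_not_unique (F : MvPolynomial (Fin 6) ℂ) (hF : F.IsHomogeneous 3)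
    (hs : ∀ x : Fin 6 → ℂ, x ≠ 0 → ∃ i, eval x (pderiv i F) ≠ 0)
    (w : Basis (Fin 3 ⊕ Fin 3) ℂ (Fin 6 → ℂ))
    (N : Matrix (Fin 4) (Fin 4) (MvPolynomial (Fin 3) ℂ)) (hN : N.IsSymm)
    (hQ : ∀ (y z : Fin 3 → ℂ) (s : ℂ),
      eval (∑ i, y i • w (.inl i) + s • ∑ i, z i • w (.inr i)) F =
        s * ∑ i, ∑ j, eval z (N i j) * (![y 0, y 1, y 2, s] : Fin 4 → ℂ) i *
          (![y 0, y 1, y 2, s] : Fin 4 → ℂ) j)
    (hD : ∀ z : Fin 3 → ℂ, z ≠ 0 → eval z N.det = 0 → ∃ i, eval z (pderiv i N.det) ≠ 0)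
    (k : ℕ) (μ : MvPolynomial (Fin 3) ℂ) (hμ : μ.IsHomogeneous (2 * k)) (hμD : ¬ N.det ∣ μ)
    (hsp : ∀ π, Irreducible π → π ∣ μ → ∃ g h, ¬ π ∣ h ∧ π ∣ g ^ 2 - N.det * h ^ 2)
    (hne : ¬ ∃ s G : MvPolynomial (Fin 3) ℂ, s.IsHomogeneous (k + 3) ∧ G.IsHomogeneous 3 ∧
      N.det ∣ s ^ 2 - μ * N.adjugate 3 3 * G ∧ ¬ N.det ∣ s ∧
      ∀ t H : MvPolynomial (Fin 3) ℂ, t.IsHomogeneous (k + 3) → H.IsHomogeneous 3 →
        N.det ∣ t ^ 2 - μ * N.adjugate 3 3 * H → ∃ a : ℂ, N.det ∣ t - C a * s) :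
    (Ideal.span {aeval (Fin.cons 1 X : Fin 6 → MvPolynomial (Fin 5) ℂ) F}).IsPrime ∧
      Nonempty (FractionRing (MvPolynomial (Fin 5) ℂ ⧸
          Ideal.span {aeval (Fin.cons 1 X : Fin 6 → MvPolynomial (Fin 5) ℂ) F}) ≃ₐ[ℂ]
        FractionRing (MvPolynomial (Fin 4) ℂ)) := by
  obtain ⟨c, hP, hNc, hr⟩ := exists_cub F hF hs w N hN hQ
  apply hr
  have hdet : N.det = C 81 * c.disc := by rw [hNc, three_smul_det]; rfl
  have hadj : N.adjugate 3 3 = C 27 * (c.Nm (X : Fin 3 → P3)).adjugate 3 3 := by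
    rw [hNc, three_smul_adj]
  have h81 : (81 : ℂ) ≠ 0 := by norm_num
  have hC : (C 27 : P3) * C (1 / 27) = 1 := by rw [← C_mul]; norm_num
  -- the section condition for `N` and for the trilinear form
  have key : ∀ s G : P3, N.det ∣ s ^ 2 - μ * N.adjugate 3 3 * (C (1 / 27) * G) ↔
      c.disc ∣ s ^ 2 - μ * (c.Nm (X : Fin 3 → P3)).adjugate 3 3 * G := by
    intro s G
    rw [hdet, C_dvd_iff h81, hadj]
    have e : s ^ 2 - μ * (C 27 * (c.Nm (X : Fin 3 → P3)).adjugate 3 3) * (C (1 / 27) * G) =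
        s ^ 2 - (C 27 * C (1 / 27)) * (μ * (c.Nm (X : Fin 3 → P3)).adjugate 3 3 * G) := by ring
    rw [e, hC, one_mul]
  have hhom : ∀ (a : ℂ) {G : P3}, G.IsHomogeneous 3 → (C a * G).IsHomogeneous 3 := by
    intro a G hG
    exact hG.C_mul a
  refine rat4_of_not_unique hP (smooth_scale hdet hD) μ k hμ (fun h => hμD ?_)
    (split_scale hdet hsp) ?_
  · rw [hdet, C_dvd_iff h81]; exact h
  · rintro ⟨s, G, hs', hG, hsG, hδs, hun⟩
    apply hne
    refine ⟨s, C (1 / 27) * G, hs', hhom _ hG, (key s G).mpr hsG, ?_, ?_⟩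
    · rw [hdet, C_dvd_iff h81]; exact hδs
    · intro t H ht hH htH
      obtain ⟨a, ha⟩ := hun t (C 27 * H) ht (hhom _ hH) (by
        rw [← key]
        have e : C (1 / 27) * (C 27 * H) = H := by
          rw [← mul_assoc, mul_comm (C (1 / 27)), hC, one_mul]
        rw [e]; exact htH)
      refine ⟨a, ?_⟩
      rw [hdet, C_dvd_iff h81]; exact ha

end Pool.Agent.Helper29.HP
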