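import Pool.Agent.Helper5.HP.Norm
import Pool.Agent.Helper64.HA.Main

set_option autoImplicit false

/-!
Sections of the theta characteristic: two independent sections give a symmetric `2 × 2` matrix of
cubics, or a tritangent line.  Project HP, MP_ffd2c1_ag.
-/

namespace Pool.Agent.Helper29.HP

open MvPolynomial

/-- the space of sections, modulo the equation of the curve -/
noncomputable def Sig (δ h : P3) (k : ℕ) : Submodule ℂ (P3 ⧸ Ideal.span {δ}) :=
  Submodule.span ℂ {f | ∃ s G : P3, s.IsHomogeneous (k + 3) ∧ G.IsHomogeneous 3 ∧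
    δ ∣ s ^ 2 - h * G ∧ Ideal.Quotient.mk (Ideal.span {δ}) s = f}

/-- a homogeneous multiple of `δ` of the same degree is a constant multiple -/
theorem eq_C_mul_of_dvd {δ p : P3} {n : ℕ} (hδ : δ.IsHomogeneous n) (hδ0 : δ ≠ 0)
    (hp : p.IsHomogeneous n) (h : δ ∣ p) : ∃ c : ℂ, p = C c * δ := by
  obtain ⟨q, hq⟩ := h
  by_cases hp0 : p = 0
  · exact ⟨0, by rw [hp0]; simp⟩
  · obtain ⟨a, b, ha, hb, hab⟩ := Helper16.hom_factor (p := δ) (q := q) (by rw [← hq]; exact hp)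
      (by rw [← hq]; exact hp0)
    have ha1 : a = n := ha.inj_right hδ hδ0
    obtain rfl : b = 0 := by omega
    rw [← totalDegree_zero_iff_isHomogeneous, totalDegree_eq_zero_iff_eq_C] at hb
    exact ⟨coeff 0 q, by rw [hq, hb]; simp [mul_comm]⟩

/-- two independent sections -/
theorem two_cases (δ h : P3) (k : ℕ) (hδ : δ.IsHomogeneous 6)
    (hsm : ∀ z : Fin 3 → ℂ, z ≠ 0 → eval z δ = 0 → ∃ i, eval z (pderiv i δ) ≠ 0)
    (hh : h.IsHomogeneous (2 * k + 3)) (hδh : ¬ δ ∣ h) {s t G H : P3}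
    (hs : s.IsHomogeneous (k + 3)) (ht : t.IsHomogeneous (k + 3)) (hG : G.IsHomogeneous 3)
    (hH : H.IsHomogeneous 3) (hsG : δ ∣ s ^ 2 - h * G) (htH : δ ∣ t ^ 2 - h * H)
    (hind : ∀ c : ℂ, ¬ δ ∣ t - C c * s) (hδs : ¬ δ ∣ s) :
    (∃ s G G1 G2 : P3, s.IsHomogeneous (k + 3) ∧ ¬ δ ∣ s ∧ G.IsHomogeneous 3 ∧
      G1.IsHomogeneous 3 ∧ G2.IsHomogeneous 3 ∧ δ = G * G1 - G2 ^ 2 ∧ δ ∣ s ^ 2 - h * G) ∨
    (∃ s g p : P3, s.IsHomogeneous (k + 3) ∧ ¬ δ ∣ s ∧ g.IsHomogeneous 1 ∧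
      p.IsHomogeneous 1 ∧ δ ∣ s ^ 2 - h * g * p ^ 2) := by
  classical
  have hirr : Irreducible δ := irreducible_of_smooth (by norm_num) hδ hsm
  have hpr : Prime δ := hirr.prime
  -- the mixed cubic
  obtain ⟨K, hK, hstK⟩ := Pool.Agent.Helper5.HP.norm_dvd δ hδ hsm (x := s * t) (y := h)
    (w := G * H) (hs.mul ht) hh (by omega) hδh (by
      obtain ⟨a, ha⟩ := hsG
      obtain ⟨b, hb⟩ := htH
      refine ⟨a * t ^ 2 + h * G * b, ?_⟩
      have h1 : s ^ 2 = h * G + δ * a := by linear_combination ha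
      have h2 : t ^ 2 = h * H + δ * b := by linear_combination hb
      rw [mul_pow, h1]
      linear_combination (h * G) * h2)
  have hK3 : K.IsHomogeneous 3 := by
    have : k + 3 + (k + 3) - (2 * k + 3) = 3 := by omega
    rwa [this] at hK
  -- the determinant
  have hdet : δ ∣ G * H - K ^ 2 := by
    have h1 : δ ∣ h ^ 2 * (G * H - K ^ 2) := by
      obtain ⟨a, ha⟩ := hsG
      obtain ⟨b, hb⟩ := htH
      obtain ⟨e, he⟩ := hstK
      refine ⟨e * (s * t + h * K) - a * t ^ 2 - h * G * b, ?_⟩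
      have h1 : s ^ 2 = h * G + δ * a := by linear_combination ha
      have h2 : t ^ 2 = h * H + δ * b := by linear_combination hb
      have h3 : s * t = h * K + δ * e := by linear_combination he
      have h4 : (s * t) ^ 2 = (h * G + δ * a) * t ^ 2 := by rw [mul_pow, h1]
      have h5 : (s * t) ^ 2 = (h * K + δ * e) * (s * t) := by rw [← h3]; ring
      linear_combination (-(h * G)) * h2 + h5 - h4 + (h * K) * h3
    rcases hpr.dvd_or_dvd h1 with h2 | h2
    · exact absurd (hpr.dvd_of_dvd_pow h2) hδh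
    · exact h2
  have hhom : (G * H - K ^ 2).IsHomogeneous 6 := (hG.mul hH).sub (by
    have := hK3.pow 2
    exact this)
  obtain ⟨c, hc⟩ := eq_C_mul_of_dvd hδ hirr.ne_zero hhom hdet
  by_cases hc0 : c = 0
  · -- degenerate case
    right
    rw [hc0, C_0, zero_mul] at hc
    have hGH : G * H = K ^ 2 := sub_eq_zero.mp hc
    have hG0 : G ≠ 0 := by
      rintro rfl
      rw [mul_zero, sub_zero] at hsG
      exact hδs (hpr.dvd_of_dvd_pow hsG)
    obtain ⟨g, p, hgp, hsq⟩ := Pool.Agent.Helper64.HA.exists_sqfree G hG0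
    have hgp0 : g * p ^ 2 ≠ 0 := by rw [← hgp]; exact hG0
    obtain ⟨a, b, ha, hb, hab⟩ := Helper16.hom_factor (p := g) (q := p ^ 2)
      (by rw [← hgp]; exact hG) hgp0
    have hp0 : p * p ≠ 0 := by
      rw [← pow_two]; exact right_ne_zero_of_mul hgp0
    obtain ⟨b1, b2, hb1, hb2, hb12⟩ := Helper16.hom_factor (p := p) (q := p)
      (by rw [← pow_two]; exact hb) hp0
    have hb' : b1 = b2 := hb1.inj_right hb2 (left_ne_zero_of_mul hp0)
    subst hb'
    rcases Nat.eq_zero_or_pos b1 with rfl | hb0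
    · -- `G` is square free
      exfalso
      have hpu : IsUnit p := by
        rw [← totalDegree_zero_iff_isHomogeneous, totalDegree_eq_zero_iff_eq_C] at hb1
        rw [hb1]
        apply IsUnit.map
        rw [isUnit_iff_ne_zero]
        intro h0
        apply left_ne_zero_of_mul hp0
        rw [hb1, h0, map_zero]
      have hGsq : Squarefree G := by
        rw [hgp]
        have hass : Associated g (g * p ^ 2) := by
          obtain ⟨u, hu⟩ := hpu.pow 2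
          exact ⟨u, by rw [hu]⟩
        exact (hass.squarefree_iff).mp hsq
      have hGK : G ∣ K := by
        have h1 : G ∣ K ^ 2 := ⟨H, hGH.symm⟩
        exact (hGsq.dvd_pow_iff_dvd two_ne_zero).mp h1
      obtain ⟨e, he⟩ := eq_C_mul_of_dvd hG hG0 hK3 hGK
      apply hind e
      have h1 : δ ∣ s * (t - C e * s) := by
        obtain ⟨a', ha'⟩ := hsG
        obtain ⟨e', he'⟩ := hstK
        refine ⟨e' - C e * a', ?_⟩
        rw [he] at he'
        linear_combination he' - (C e) * ha'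
      exact (hpr.dvd_or_dvd h1).resolve_left hδs
    · obtain rfl : b1 = 1 := by omega
      obtain rfl : a = 1 := by omega
      refine ⟨s, g, p, hs, hδs, ha, hb1, ?_⟩
      have : h * g * p ^ 2 = h * G := by rw [hgp]; ring
      rw [this]
      exact hsG
  · left
    obtain ⟨r, hr⟩ := IsAlgClosed.exists_pow_nat_eq c⁻¹ (n := 2) (by norm_num)
    have hr0 : r ≠ 0 := by
      rintro rfl
      rw [zero_pow two_ne_zero] at hr
      exact inv_ne_zero hc0 hr.symm
    have hcr : c * r ^ 2 = 1 := by rw [hr, mul_inv_cancel₀ hc0]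
    have hCr : C c * C r ^ 2 = (1 : P3) := by rw [← C_pow, ← C_mul, hcr, C_1]
    refine ⟨C r * s, C (r ^ 2) * G, H, C r * K, ?_, ?_, ?_, hH, ?_, ?_, ?_⟩
    · exact hs.C_mul r
    · intro h1
      rcases hpr.dvd_or_dvd h1 with h2 | h2
      · exact hpr.not_isUnit (isUnit_of_dvd_unit h2 ((isUnit_iff_ne_zero.mpr hr0).map C))
      · exact hδs h2
    · exact hG.C_mul _
    · exact hK3.C_mul r
    · rw [C_pow]
      linear_combination (-(C r ^ 2)) * hc - δ * hCr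
    · obtain ⟨a, ha⟩ := hsG
      refine ⟨C r ^ 2 * a, ?_⟩
      rw [C_pow]
      linear_combination (C r ^ 2) * ha

/-- no section, or a symmetric `2 × 2` matrix of cubics, or a tritangent line, unless there is
exactly one section up to scalars -/
theorem sec_cases (δ h : P3) (k : ℕ) (hδ : δ.IsHomogeneous 6)
    (hsm : ∀ z : Fin 3 → ℂ, z ≠ 0 → eval z δ = 0 → ∃ i, eval z (pderiv i δ) ≠ 0)
    (hh : h.IsHomogeneous (2 * k + 3)) (hδh : ¬ δ ∣ h)
    (he : ¬ ∃ s G : P3, s.IsHomogeneous (k + 3) ∧ G.IsHomogeneous 3 ∧ δ ∣ s ^ 2 - h * G ∧ ¬ δ ∣ s ∧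
      ∀ t H : P3, t.IsHomogeneous (k + 3) → H.IsHomogeneous 3 → δ ∣ t ^ 2 - h * H →
        ∃ c : ℂ, δ ∣ t - C c * s) :
    (∀ s G : P3, s.IsHomogeneous (k + 3) → G.IsHomogeneous 3 → δ ∣ s ^ 2 - h * G → δ ∣ s) ∨
    (∃ s G G1 G2 : P3, s.IsHomogeneous (k + 3) ∧ ¬ δ ∣ s ∧ G.IsHomogeneous 3 ∧
      G1.IsHomogeneous 3 ∧ G2.IsHomogeneous 3 ∧ δ = G * G1 - G2 ^ 2 ∧ δ ∣ s ^ 2 - h * G) ∨
    (∃ s g p : P3, s.IsHomogeneous (k + 3) ∧ ¬ δ ∣ s ∧ g.IsHomogeneous 1 ∧
      p.IsHomogeneous 1 ∧ δ ∣ s ^ 2 - h * g * p ^ 2) := by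
  by_cases h0 : ∀ s G : P3, s.IsHomogeneous (k + 3) → G.IsHomogeneous 3 → δ ∣ s ^ 2 - h * G → δ ∣ s
  · exact Or.inl h0
  right
  push Not at h0
  obtain ⟨s, G, hs, hG, hsG, hδs⟩ := h0
  by_contra hcon
  apply he
  refine ⟨s, G, hs, hG, hsG, hδs, fun t H ht hH htH => ?_⟩
  by_contra hc
  push Not at hc
  exact hcon (two_cases δ h k hδ hsm hh hδh hs ht hG hH hsG htH hc hδs)

/-- the condition of `sec_cases` in terms of the dimension of the space of sections -/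
theorem finrank_sig_eq_one {δ h : P3} {k : ℕ}
    (he : ∃ s G : P3, s.IsHomogeneous (k + 3) ∧ G.IsHomogeneous 3 ∧ δ ∣ s ^ 2 - h * G ∧ ¬ δ ∣ s ∧
      ∀ t H : P3, t.IsHomogeneous (k + 3) → H.IsHomogeneous 3 → δ ∣ t ^ 2 - h * H →
        ∃ c : ℂ, δ ∣ t - C c * s) : Module.finrank ℂ (Sig δ h k) = 1 := by
  obtain ⟨s, G, hs, hG, hsG, hδs, h1⟩ := he
  have h2 : Sig δ h k = Submodule.span ℂ {Ideal.Quotient.mk (Ideal.span {δ}) s} := by
    apply le_antisymm
    · rw [Sig, Submodule.span_le]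
      rintro f ⟨t, H, ht, hH, htH, rfl⟩
      obtain ⟨c, hc⟩ := h1 t H ht hH htH
      rw [SetLike.mem_coe, Submodule.mem_span_singleton]
      refine ⟨c, ?_⟩
      have h3 : Ideal.Quotient.mk (Ideal.span {δ}) (t - C c * s) = 0 := by
        rw [Ideal.Quotient.eq_zero_iff_mem, Ideal.mem_span_singleton]
        exact hc
      rw [map_sub, map_mul, sub_eq_zero] at h3
      rw [h3, ← map_mul, ← smul_eq_C_mul]
      rfl
    · rw [Submodule.span_le, Set.singleton_subset_iff]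
      exact Submodule.subset_span ⟨s, G, hs, hG, hsG, rfl⟩
  rw [h2, finrank_span_singleton]
  intro h3
  rw [Ideal.Quotient.eq_zero_iff_mem, Ideal.mem_span_singleton] at h3
  exact hδs h3

/-- no section, or a symmetric `2 × 2` matrix of cubics, or a tritangent line, unless the space of
sections is one-dimensional -/
theorem sig_cases (δ h : P3) (k : ℕ) (hδ : δ.IsHomogeneous 6)
    (hsm : ∀ z : Fin 3 → ℂ, z ≠ 0 → eval z δ = 0 → ∃ i, eval z (pderiv i δ) ≠ 0)
    (hh : h.IsHomogeneous (2 * k + 3)) (hδh : ¬ δ ∣ h)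
    (he : Module.finrank ℂ (Sig δ h k) ≠ 1) :
    (∀ s G : P3, s.IsHomogeneous (k + 3) → G.IsHomogeneous 3 → δ ∣ s ^ 2 - h * G → δ ∣ s) ∨
    (∃ s G G1 G2 : P3, s.IsHomogeneous (k + 3) ∧ ¬ δ ∣ s ∧ G.IsHomogeneous 3 ∧
      G1.IsHomogeneous 3 ∧ G2.IsHomogeneous 3 ∧ δ = G * G1 - G2 ^ 2 ∧ δ ∣ s ^ 2 - h * G) ∨
    (∃ s g p : P3, s.IsHomogeneous (k + 3) ∧ ¬ δ ∣ s ∧ g.IsHomogeneous 1 ∧
      p.IsHomogeneous 1 ∧ δ ∣ s ^ 2 - h * g * p ^ 2) :=
  sec_cases δ h k hδ hsm hh hδh fun h1 => he (finrank_sig_eq_one h1)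

end Pool.Agent.Helper29.HP
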