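import Pool.Agent.Helper64.HA.Main

set_option autoImplicit false
set_option linter.unusedVariables false

/-!
Isotropy criterion for a quaternary form over `C(x, y)` by purity (project HP, MP_ffd2c1_ag).
-/

namespace Pool.Agent.Helper5.HP

open Matrix Module Pool.Agent.Helper27.PUR Pool.Agent.Helper64.HA

open Pool.Agent.Helper29.HP in
/-- the form `N - μ <1, δ>` is locally unimodular everywhere, `μ` square free -/
theorem loc_all2 (N : Matrix (Fin 4) (Fin 4) AA) (hN : N.IsSymm) (δ μ s : AA) (hδ : Prime δ)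
    (hdN : N.det = δ) (hμ : Squarefree μ) (hμδ : ¬ δ ∣ μ)
    (hsp : ∀ π : AA, Prime π → π ∣ μ → ∃ g h : AA, ¬ π ∣ h ∧ π ∣ g ^ 2 - δ * h ^ 2)
    (i : Fin 4) (hi : ¬ δ ∣ N.adjugate i i)
    (hs : δ ∣ s ^ 2 - μ * N.adjugate i i) (π : AA) (hπ : Irreducible π) :
    LocUni ((fromBlocks N 0 0 (-(μ • (diagonal ![1, δ] : Matrix (Fin 2) (Fin 2) AA)))).map
      (algebraMap AA KK)) π := by
  set M : Matrix (Fin 2) (Fin 2) AA := diagonal ![1, δ] with hMdef
  have hM : M.IsSymm := isSymm_diagonal _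
  have hdM : M.det = δ := by
    rw [hMdef, det_diagonal, Fin.prod_univ_two]; simp
  have hadj : M.adjugate 1 1 = 1 := by
    rw [hMdef, adjugate_fin_two]; simp
  by_cases h1 : π ∣ δ
  · -- the discriminant prime
    have hass : δ ∣ π := (hπ.dvd_symm hδ.irreducible h1)
    have hsδ : ¬ δ ∣ s := by
      intro h
      have h2 : δ ∣ μ * N.adjugate i i := by
        have h3 : μ * N.adjugate i i = s ^ 2 - (s ^ 2 - μ * N.adjugate i i) := by ring
        rw [h3]
        exact dvd_sub (Dvd.dvd.trans h (dvd_pow_self s two_ne_zero)) hs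
      rcases hδ.dvd_or_dvd h2 with h | h
      · exact hμδ h
      · exact hi h
    have h1' : ¬ δ ∣ 1 := fun h => hδ.not_isUnit (isUnit_of_dvd_one h)
    obtain ⟨Λ, hΛ1, hΛ2, hΛ3, s', hs'1, hs'2⟩ := loc_delta (F := KK) hN hM (μ := μ) (d1 := 1)
      (d2 := 1) (s := μ) (t := s) (k := i) (l := 1) hδ (by rw [hdN, mul_one])
      (by rw [hdM, mul_one]) h1' h1' hi (by rw [hadj]; exact h1') hμδ hsδ (by
        obtain ⟨q, hq⟩ := hs
        refine ⟨-(q * μ), ?_⟩
        rw [hadj]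
        linear_combination (-μ) * hq)
    exact ⟨Λ, hΛ1, hΛ2, hΛ3, s', fun h => hs'1 (hass.trans h), hs'2⟩
  · by_cases h2 : π ∣ μ
    · -- a prime factor of the multiplier
      obtain ⟨g, h, hh, hgh⟩ := hsp π hπ.prime h2
      have : Fact (Irreducible π) := ⟨hπ⟩
      set f : AA →+* AdjoinRoot π := AdjoinRoot.mk π with hf
      have hf0 : ∀ x, f x = 0 ↔ π ∣ x := fun x => AdjoinRoot.mk_eq_zero
      have hT : Pool.Agent.Helper27.PUR.Tern (AdjoinRoot π) := tern_residue π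
      have hdetf : f M.det ≠ 0 := by
        rw [Ne, hf0, hdM]; exact h1
      have h2' : (2 : AdjoinRoot π) ≠ 0 := by
        have h3 : (2 : AdjoinRoot π) = algebraMap kx (AdjoinRoot π) 2 := (map_ofNat _ 2).symm
        rw [h3]
        exact (map_ne_zero _).mpr two_ne_zero
      have hMf : (M.map f).det = f M.det := by
        rw [RingHom.map_det, RingHom.mapMatrix_apply]
      have hmeta : Mtb (M.map f) := by
        refine meta_of_disc h2' hT 1 (Fin 2) (M.map f) ?_ ?_ (by simp) ?_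
        · rw [← Matrix.transpose_map, hM.eq]
        · rw [hMf]; exact (isUnit_iff_ne_zero (G₀ := AdjoinRoot π)).mpr (fun h => hdetf h)
        · obtain ⟨r, hr⟩ := isSquare_neg_one
          have hr' : f r * f r = -1 := by rw [← map_mul, ← hr, map_neg, map_one]
          have hfh : f h ≠ 0 := by rw [Ne, hf0]; exact hh
          have hfg : f g ^ 2 = f δ * f h ^ 2 := by
            have := (hf0 _).mpr hgh
            rw [map_sub, map_mul, map_pow, map_pow] at this
            exact sub_eq_zero.mp this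
          refine ⟨f r * f g / f h, ?_⟩
          rw [hMf, hdM]
          field_simp
          linear_combination (-(f g ^ 2)) * hr' + hfg
      obtain ⟨r, u, hu1, hu2⟩ := lift_lagr f (AdjoinRoot.mk_surjective) hf0 M hM hdetf hmeta
      obtain ⟨μ', hμ'⟩ := h2
      refine loc_pi hN hM hπ.prime hμ' ?_ (by rw [hdN]; exact h1) (by rw [hdM]; exact h1) u hu1 hu2
      rintro ⟨q, hq⟩
      have := hμ π ⟨q, by rw [hμ', hq]; ring⟩
      exact hπ.not_isUnit this
    · refine loc_other (block_symm hN hM μ) ?_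
      have hneg : (-(μ • M)).det = μ ^ 2 * δ := by
        rw [det_neg, det_smul, Fintype.card_fin, hdM]; ring
      rw [det_fromBlocks_zero₂₁, hneg, hdN]
      intro h
      rcases hπ.prime.dvd_or_dvd h with h | h
      · exact h1 h
      · rcases hπ.prime.dvd_or_dvd h with h | h
        · exact h2 (hπ.prime.dvd_of_dvd_pow h)
        · exact h1 h

open Pool.Agent.Helper29.HP in
/-- **isotropy criterion**, square free multiplier -/
theorem isotropic_sqfree (N : Matrix (Fin 4) (Fin 4) AA) (hN : N.IsSymm) (δ μ s : AA)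
    (hδ : Prime δ) (hdN : N.det = δ) (hμ : Squarefree μ) (hμδ : ¬ δ ∣ μ)
    (hsp : ∀ π : AA, Prime π → π ∣ μ → ∃ g h : AA, ¬ π ∣ h ∧ π ∣ g ^ 2 - δ * h ^ 2)
    (i : Fin 4) (hi : ¬ δ ∣ N.adjugate i i) (hs : δ ∣ s ^ 2 - μ * N.adjugate i i) :
    ∃ y : Fin 4 → KK, y ≠ 0 ∧ y ⬝ᵥ (N.map (algebraMap AA KK)) *ᵥ y = 0 := by
  set M : Matrix (Fin 2) (Fin 2) AA := diagonal ![1, δ] with hMdef
  have hM : M.IsSymm := isSymm_diagonal _
  have hdM : M.det = δ := by
    rw [hMdef, det_diagonal, Fin.prod_univ_two]; simp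
  have hμ0 : μ ≠ 0 := hμ.ne_zero
  set G := fromBlocks N 0 0 (-(μ • M)) with hG
  have hGd : G.det = δ * (μ ^ 2 * δ) := by
    have hneg : (-(μ • M)).det = μ ^ 2 * δ := by
      rw [det_neg, det_smul, Fintype.card_fin, hdM]; ring
    rw [hG, det_fromBlocks_zero₂₁, hneg, hdN]
  have hmeta : Mtb (G.map (algebraMap AA KK)) := by
    refine meta_of_locUni (F := KK) two_ne_zero tern_kx 3 (by simp) G
      (block_symm hN hM μ) ?_ ?_ (loc_all2 N hN δ μ s hδ hdN hμ hμδ hsp i hi hs)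
    · rw [hGd]
      exact mul_ne_zero hδ.ne_zero (mul_ne_zero (pow_ne_zero 2 hμ0) hδ.ne_zero)
    · rw [hGd]
      obtain ⟨r, hr⟩ := isSquare_neg_one
      refine ⟨r * δ * μ, ?_⟩
      linear_combination (δ ^ 2 * μ ^ 2) * hr
  obtain ⟨L, hL1, hL2⟩ := hmeta
  have h3 : 3 ≤ finrank KK L := by
    simp only [Fintype.card_sum, Fintype.card_fin] at hL1
    omega
  -- a vector of `L` with vanishing second component
  let φ : L →ₗ[KK] (Fin 2 → KK) :=
    (LinearMap.funLeft KK KK (Sum.inr : Fin 2 → Fin 4 ⊕ Fin 2)).comp L.subtype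
  have h4 := LinearMap.finrank_range_add_finrank_ker φ
  have h5 : finrank KK (LinearMap.range φ) ≤ 2 := by
    refine (Submodule.finrank_le _).trans ?_
    simp
  have h6 : LinearMap.ker φ ≠ ⊥ := by
    intro h0
    rw [h0, finrank_bot] at h4
    omega
  obtain ⟨w, hw, hne⟩ := Submodule.exists_mem_ne_zero_of_ne_bot h6
  have hw2 : ∀ j : Fin 2, (w : Fin 4 ⊕ Fin 2 → KK) (Sum.inr j) = 0 := fun j =>
    congrFun (LinearMap.mem_ker.mp hw) j
  have hwe : (w : Fin 4 ⊕ Fin 2 → KK) =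
      Sum.elim (fun i => (w : Fin 4 ⊕ Fin 2 → KK) (Sum.inl i)) 0 := by
    funext k
    rcases k with k | k
    · rfl
    · exact hw2 k
  refine ⟨fun i => (w : Fin 4 ⊕ Fin 2 → KK) (Sum.inl i), ?_, ?_⟩
  · intro h0
    apply hne
    apply Subtype.ext
    change (w : Fin 4 ⊕ Fin 2 → KK) = 0
    rw [hwe, h0]
    funext k
    rcases k with k | k <;> rfl
  · have h7 := hL2 _ w.2 _ w.2
    rw [hwe] at h7
    have hGm : G.map (algebraMap AA KK) = fromBlocks (N.map (algebraMap AA KK)) 0 0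
        ((-(μ • M)).map (algebraMap AA KK)) := by
      rw [hG, fromBlocks_map]
      simp
    rw [hGm, fromBlocks_mulVec] at h7
    simp only [Sum.elim_comp_inl, Sum.elim_comp_inr, sumElim_dotProduct_sumElim, zero_mulVec,
      mulVec_zero, add_zero, zero_add, zero_dotProduct] at h7
    exact h7

open Pool.Agent.Helper29.HP in
/-- **isotropy criterion** -/
theorem isotropic_of_mult (N : Matrix (Fin 4) (Fin 4) AA) (hN : N.IsSymm) (δ μ s b : AA)
    (hδ : Prime δ) (hdN : N.det = δ) (hμ : μ ≠ 0) (hμδ : ¬ δ ∣ μ) (hb : ¬ δ ∣ b)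
    (hsp : ∀ π : AA, Prime π → π ∣ μ → ∃ g h : AA, ¬ π ∣ h ∧ π ∣ g ^ 2 - δ * h ^ 2)
    (i : Fin 4) (hi : ¬ δ ∣ N.adjugate i i) (hs : δ ∣ s ^ 2 - μ * N.adjugate i i * b ^ 2) :
    ∃ y : Fin 4 → KK, y ≠ 0 ∧ y ⬝ᵥ (N.map (algebraMap AA KK)) *ᵥ y = 0 := by
  obtain ⟨μ₀, ν, hμν, hsq⟩ := exists_sqfree μ hμ
  have hδμ₀ : ¬ δ ∣ μ₀ := fun h => hμδ (by rw [hμν]; exact Dvd.dvd.mul_right h _)
  have hδν : ¬ δ ∣ ν * b := by
    intro h
    rcases hδ.dvd_or_dvd h with h | h
    · exact hμδ (by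
        rw [hμν]; exact Dvd.dvd.mul_left (Dvd.dvd.trans h (dvd_pow_self ν two_ne_zero)) _)
    · exact hb h
  obtain ⟨a, c, hac⟩ : ∃ a c : AA, a * δ + c * (ν * b) = 1 := by
    have : Fact (Irreducible δ) := ⟨hδ.irreducible⟩
    have h1 : AdjoinRoot.mk δ (ν * b) ≠ 0 := by
      rw [Ne, AdjoinRoot.mk_eq_zero]; exact hδν
    obtain ⟨c, hc⟩ := AdjoinRoot.mk_surjective (g := δ) (AdjoinRoot.mk δ (ν * b))⁻¹
    have h2 : AdjoinRoot.mk δ (1 - c * (ν * b)) = 0 := by
      rw [map_sub, map_mul, map_one, hc, inv_mul_cancel₀ (fun h => h1 h), sub_self]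
    obtain ⟨a, ha⟩ := AdjoinRoot.mk_eq_zero.mp h2
    exact ⟨a, c, by linear_combination -ha⟩
  refine isotropic_sqfree N hN δ μ₀ (s * c) hδ hdN hsq hδμ₀ (fun π hπ h => hsp π hπ (by
      rw [hμν]; exact Dvd.dvd.mul_right h _)) i hi ?_
  obtain ⟨q, hq⟩ := hs
  have e1 : (s * c) ^ 2 - μ₀ * N.adjugate i i =
      δ * (c ^ 2 * q - μ₀ * N.adjugate i i * (a * (c * (ν * b) + 1))) := by
    rw [hμν] at hq
    linear_combination (c ^ 2) * hq + μ₀ * N.adjugate i i * (c * (ν * b) + 1) * hac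
  rw [e1]
  exact dvd_mul_right _ _

end Pool.Agent.Helper5.HP
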