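import Pool.Agent.Helper29.HP.St.Six

set_option autoImplicit false

/-!
The homogeneous coordinate ring of a smooth plane sextic is normal (in the form needed for
sections of theta characteristics).  Project HP, MP_ffd2c1_ag.
-/

namespace Pool.Agent.Helper5.HP

open MvPolynomial Pool.Agent.Helper29 Pool.Agent.Helper29.HP Pool.Agent.Helper29.HP.Six

/-- smoothness is invariant under linear changes of coordinates -/
theorem smooth_lsub {δ : P3}
    (hsm : ∀ z : Fin 3 → ℂ, z ≠ 0 → eval z δ = 0 → ∃ i, eval z (pderiv i δ) ≠ 0)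
    {a b : (Fin 3 → ℂ) →ₗ[ℂ] (Fin 3 → ℂ)} (hab : ∀ z, a (b z) = z)
    (ha0 : ∀ z, a z = 0 → z = 0) :
    ∀ z : Fin 3 → ℂ, z ≠ 0 → eval z (lsub a δ) = 0 → ∃ i, eval z (pderiv i (lsub a δ)) ≠ 0 := by
  intro z hz hzδ
  rw [eval_lsub] at hzδ
  obtain ⟨j, hj⟩ := hsm (a z) (fun h => hz (ha0 z h)) hzδ
  by_contra hcon
  push Not at hcon
  apply hj
  let g : (Fin 3 → ℂ) →ₗ[ℂ] ℂ := ∑ j, (eval (a z) (pderiv j δ)) • LinearMap.proj j
  have hg : ∀ w, g w = ∑ j, eval (a z) (pderiv j δ) * w j := by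
    intro w
    simp [g, LinearMap.sum_apply]
  have hg0 : g ∘ₗ a = 0 := by
    refine LinearMap.pi_ext' fun i => ?_
    ext
    have := hcon i
    rw [eval_pderiv_lsub, ← hg] at this
    simpa using this
  have hg1 : g (Pi.single j 1) = 0 := by
    rw [← hab (Pi.single j 1)]
    exact LinearMap.congr_fun hg0 (b (Pi.single j 1))
  rw [hg, Finset.sum_eq_single j] at hg1
  · simpa using hg1
  · intro i _ hi
    rw [Pi.single_eq_of_ne hi, mul_zero]
  · intro h
    exact absurd (Finset.mem_univ j) h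

/-- homogeneous decomposition without a lower bound on the degree -/
theorem hom_decomp' {δ h p : P3} {n m d : ℕ} (hδ : δ.IsHomogeneous n) (hh : h.IsHomogeneous m)
    (hp : p.IsHomogeneous d) (hm : m ≤ d) (hmem : p ∈ Ideal.span {δ, h}) :
    ∃ A : P3, A.IsHomogeneous (d - m) ∧ δ ∣ p - h * A := by
  by_cases hn : n ≤ d
  · exact hom_decomp hδ hh hp hn hm hmem
  · rw [Ideal.mem_span_pair] at hmem
    obtain ⟨a, b, hab⟩ := hmem
    refine ⟨homogeneousComponent (d - m) b, homogeneousComponent_isHomogeneous _ _, ?_⟩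
    have h1 : homogeneousComponent d p = p := by
      rw [homogeneousComponent_of_mem hp]; simp
    have h2 : homogeneousComponent d (a * δ) = 0 := by
      rw [← sum_homogeneousComponent a, Finset.sum_mul, map_sum]
      refine Finset.sum_eq_zero fun i _ => ?_
      have h3 := (homogeneousComponent_isHomogeneous i a).mul hδ
      rw [homogeneousComponent_of_mem h3, if_neg (by omega)]
    have h3 : p = homogeneousComponent (d - m) b * h := by
      rw [← homogeneousComponent_mul_of_hom hh b hm]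
      conv_lhs => rw [← h1, ← hab, map_add, h2, zero_add]
    have h4 : p - h * homogeneousComponent (d - m) b = 0 := by
      rw [mul_comm h, ← h3, sub_self]
    rw [h4]
    exact dvd_zero _

theorem norm_affine (δ : P3) (hδ : δ.IsHomogeneous 6)
    (hsm : ∀ z : Fin 3 → ℂ, z ≠ 0 → eval z δ = 0 → ∃ i, eval z (pderiv i δ) ≠ 0)
    {x y w : P3} {n m : ℕ} (hx : x.IsHomogeneous n) (hy : y.IsHomogeneous m) (hmn : m ≤ n)
    (hinf : ∀ z : Fin 3 → ℂ, z ≠ 0 → z 0 = 0 → eval z δ = 0 → eval z y ≠ 0)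
    (h : δ ∣ x ^ 2 - y ^ 2 * w) :
    ∃ q : P3, q.IsHomogeneous (n - m) ∧ δ ∣ x - y * q := by
  classical
  have hirr : Irreducible δ := irreducible_of_smooth (by norm_num) hδ hsm
  have h0 : ¬ X 0 ∣ δ := not_X_dvd hirr hδ
  have hf : Irreducible (dh2 δ) := irreducible_dh2 hδ hirr h0
  have hne : rh δ ≠ 0 := fun h => h0 (rh_eq_zero h)
  have hrr : IsRelPrime (rh δ) (rh y) := rh_rel hδ h0 hinf
  have hded : IsDedekindDomain (P2 ⧸ Ideal.span {dh2 δ}) :=
    dedekind_of_smooth (dh2 δ) hf (smooth_dh2 hδ hsm)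
  set π : P2 →+* P2 ⧸ Ideal.span {dh2 δ} := Ideal.Quotient.mk (Ideal.span {dh2 δ}) with hπ
  have hπ0 : ∀ x, π x = 0 ↔ dh2 δ ∣ x := by
    intro x
    rw [hπ, Ideal.Quotient.eq_zero_iff_mem, Ideal.mem_span_singleton]
  have h1 : π (dh2 x) ^ 2 = π (dh2 y) ^ 2 * π (dh2 w) := by
    have h2 := map_dvd dh2 h
    rw [map_sub, map_mul, map_pow, map_pow] at h2
    have h3 := (hπ0 _).mpr h2
    rw [map_sub, map_mul, map_pow, map_pow] at h3
    exact sub_eq_zero.mp h3
  have h2 : π (dh2 y) ∣ π (dh2 x) :=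
    (IsIntegrallyClosed.pow_dvd_pow_iff two_ne_zero).mp ⟨_, h1⟩
  obtain ⟨q, hq⟩ := h2
  obtain ⟨q', rfl⟩ := Ideal.Quotient.mk_surjective q
  have h3 : dh2 x ∈ Ideal.span {dh2 δ, dh2 y} := by
    have h4 : π (dh2 x - dh2 y * q') = 0 := by
      rw [map_sub, map_mul, hq]
      exact sub_self _
    obtain ⟨e, he⟩ := (hπ0 _).mp h4
    rw [Ideal.mem_span_pair]
    exact ⟨e, q', by linear_combination -he⟩
  obtain ⟨N, hN⟩ := mem_of_dh2_mem hδ hy hx h3
  exact hom_decomp' hδ hy hx hmn (mem_of_X_pow_mul hne hrr N hN)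

/-- **normality**: a form whose square is divisible by the square of another form on a smooth
plane sextic is divisible by it -/
theorem norm_dvd (δ : P3) (hδ : δ.IsHomogeneous 6)
    (hsm : ∀ z : Fin 3 → ℂ, z ≠ 0 → eval z δ = 0 → ∃ i, eval z (pderiv i δ) ≠ 0)
    {x y w : P3} {n m : ℕ} (hx : x.IsHomogeneous n) (hy : y.IsHomogeneous m) (hmn : m ≤ n)
    (hδy : ¬ δ ∣ y) (h : δ ∣ x ^ 2 - y ^ 2 * w) :
    ∃ q : P3, q.IsHomogeneous (n - m) ∧ δ ∣ x - y * q := by
  classical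
  have hirr : Irreducible δ := irreducible_of_smooth (by norm_num) hδ hsm
  have hrel : IsRelPrime δ y := hirr.isRelPrime_iff_not_dvd.mpr hδy
  have hy0 : y ≠ 0 := by
    rintro rfl
    exact hδy (dvd_zero _)
  obtain ⟨l, hl, hav⟩ := TR.exists_lin_avoid hδ hy hrel hy0
  obtain ⟨φ, hφ⟩ := exists_lequiv hl
  let a : (Fin 3 → ℂ) →ₗ[ℂ] (Fin 3 → ℂ) := φ.symm.toLinearMap
  let b : (Fin 3 → ℂ) →ₗ[ℂ] (Fin 3 → ℂ) := φ.toLinearMap
  have hab : ∀ z, a (b z) = z := φ.symm_apply_apply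
  have hba : ∀ z, b (a z) = z := φ.apply_symm_apply
  have h1 : ∀ p, lsub b (lsub a p) = p := lsub_lsub hab
  have ha0 : ∀ z, a z = 0 → z = 0 := by
    intro z hz
    rw [← hba z, hz, map_zero]
  obtain ⟨q, hq1, hq2⟩ := norm_affine (lsub a δ) (lsub_hom a hδ) (smooth_lsub hsm hab ha0)
    (lsub_hom a hx) (lsub_hom a hy) hmn (by
      intro z hz hz0 hzδ hzy
      rw [eval_lsub] at hzδ hzy
      apply hz
      apply ha0
      refine hav (a z) ?_ hzδ hzy
      rw [← hφ]
      change b (a z) 0 = 0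
      rw [hba, hz0]) (w := lsub a w) (by
      have := map_dvd (lsub a) h
      rwa [map_sub, map_mul, map_pow, map_pow] at this)
  refine ⟨lsub b q, lsub_hom b hq1, ?_⟩
  have := map_dvd (lsub b) hq2
  rwa [map_sub, map_mul, h1, h1, h1] at this

end Pool.Agent.Helper5.HP
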