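import Pool.Agent.Helper29.HP.Main
import Pool.Agent.Helper5.HP.TwoEx
import Pool.Agent.Helper82.HP.TwoSec
import Pool.Agent.Helper82.HP.Tri

set_option autoImplicit false

/-!
A smooth cubic fourfold containing a plane, with smooth discriminant sextic, is rational as soon
as one of the twisted theta characteristics does not have exactly one section.
Project HP, MP_ffd2c1_ag.
-/

namespace Pool.Agent.Helper29.HP

open MvPolynomial

open Pool.Agent.Helper16 in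
theorem evenOn_h {c : Cub (I6 → ℂ)} (hsm : ∀ z : Fin 3 → ℂ, z ≠ 0 → eval z c.disc = 0 →
      ∃ i, eval z (pderiv i c.disc) ≠ 0)
    (μ : P3) (k : ℕ) (hμ : μ.IsHomogeneous (2 * k)) (hμδ : ¬ c.disc ∣ μ)
    (hsp : ∀ π : P3, Irreducible π → π ∣ μ → ∃ g h : P3, ¬ π ∣ h ∧ π ∣ g ^ 2 - c.disc * h ^ 2) :
    EvenOn c.disc (μ * (c.Nm (X : Fin 3 → P3)).adjugate 3 3) := by
  have hδh : c.disc.IsHomogeneous 6 := c.disc_hom
  have hirr : Irreducible c.disc := irreducible_of_smooth (by norm_num) hδh hsm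
  have hμ0 : μ ≠ 0 := fun h => hμδ (h ▸ dvd_zero _)
  refine evenOn_mul (evenOn_of_factors hμ0 ?_) (evenOn_adj (c.Nm (X : Fin 3 → P3)) (c.Nm_symm _)
    hsm 3)
  intro π hπ hd
  obtain ⟨g, h, h1, h2⟩ := hsp π hπ hd
  obtain ⟨m, hm⟩ := hd
  obtain ⟨e, b, he, -, -⟩ := hom_factor (hm ▸ hμ) (hm ▸ hμ0)
  obtain ⟨d, g', h', hg', hh', h1', h2'⟩ := hom_sq3 he hπ hδh h1 h2
  exact evenOn_split c.disc π e hδh hirr hsm hπ he
    (fun hd => hμδ (hm ▸ hd.mul_right _)) d g' h' hg' hh' h1' h2'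

open Pool.Agent.Helper16 in
/-- Theorem A, all even theta characteristics -/
theorem rat4_of_not_unique {c : Cub (I6 → ℂ)} (hP : c.Iso P0)
    (hsm : ∀ z : Fin 3 → ℂ, z ≠ 0 → eval z c.disc = 0 → ∃ i, eval z (pderiv i c.disc) ≠ 0)
    (μ : P3) (k : ℕ) (hμ : μ.IsHomogeneous (2 * k)) (hμδ : ¬ c.disc ∣ μ)
    (hsp : ∀ π : P3, Irreducible π → π ∣ μ → ∃ g h : P3, ¬ π ∣ h ∧ π ∣ g ^ 2 - c.disc * h ^ 2)
    (hne : ¬ ∃ s G : P3, s.IsHomogeneous (k + 3) ∧ G.IsHomogeneous 3 ∧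
      c.disc ∣ s ^ 2 - μ * (c.Nm (X : Fin 3 → P3)).adjugate 3 3 * G ∧ ¬ c.disc ∣ s ∧
      ∀ t H : P3, t.IsHomogeneous (k + 3) → H.IsHomogeneous 3 →
        c.disc ∣ t ^ 2 - μ * (c.Nm (X : Fin 3 → P3)).adjugate 3 3 * H →
        ∃ a : ℂ, c.disc ∣ t - C a * s) :
    c.Rat4 := by
  have hδh : c.disc.IsHomogeneous 6 := c.disc_hom
  have hirr : Irreducible c.disc := irreducible_of_smooth (by norm_num) hδh hsm
  have h33 := adj33_not_dvd hirr
  obtain ⟨n, hn, h33h⟩ := c.adj_hom 3 3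
  have hw : wt 3 = 0 := rfl
  rw [hw] at hn
  have hn' : n = 3 := by omega
  subst hn'
  have hhe := evenOn_h hsm μ k hμ hμδ hsp
  have hhh : (μ * (c.Nm (X : Fin 3 → P3)).adjugate 3 3).IsHomogeneous (2 * k + 3) := hμ.mul h33h
  have hhδ : ¬ c.disc ∣ μ * (c.Nm (X : Fin 3 → P3)).adjugate 3 3 := by
    intro h
    rcases hirr.prime.dvd_or_dvd h with h | h
    · exact hμδ h
    · exact h33 h
  rcases sec_cases c.disc _ k hδh hsm hhh hhδ hne with h | ⟨s, G, G1, G2, hs, hδs, hG, hG1, hG2,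
    hdet, hsG⟩ | ⟨s, g, p, hs, hδs, hg, hp, hsg⟩
  · exact main_contact hP hsm μ k hμ hμδ hsp h
  · exact Pool.Agent.Helper82.HP.rat4_of_two_sections hP hirr hδh 3 h33h h33 hμ hμδ hsp hG
      (by norm_num) hdet.symm hsG
  · obtain ⟨t, A, B, hAB, ht⟩ := tritangent c.disc _ k hδh hsm hhh hhδ hhe hs hδs hg hp hsg
    exact Pool.Agent.Helper82.HP.rat4_of_two_sections hP hirr hδh 3 h33h h33 hμ hμδ hsp hg
      (by norm_num) hAB.symm ht

open Pool.Agent.Helper16 in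
/-- Theorem A, all even theta characteristics, in terms of the dimension -/
theorem rat4_of_ne_one {c : Cub (I6 → ℂ)} (hP : c.Iso P0)
    (hsm : ∀ z : Fin 3 → ℂ, z ≠ 0 → eval z c.disc = 0 → ∃ i, eval z (pderiv i c.disc) ≠ 0)
    (μ : P3) (k : ℕ) (hμ : μ.IsHomogeneous (2 * k)) (hμδ : ¬ c.disc ∣ μ)
    (hsp : ∀ π : P3, Irreducible π → π ∣ μ → ∃ g h : P3, ¬ π ∣ h ∧ π ∣ g ^ 2 - c.disc * h ^ 2)
    (hne : Module.finrank ℂ (Sig c.disc (μ * (c.Nm (X : Fin 3 → P3)).adjugate 3 3) k) ≠ 1) :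
    c.Rat4 :=
  rat4_of_not_unique hP hsm μ k hμ hμδ hsp fun h => hne (finrank_sig_eq_one h)

end Pool.Agent.Helper29.HP
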